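import Pool.Agent.Lib_MP_a076cd.Count

/-!
# Almost all scales
-/

set_option autoImplicit false

namespace Pool.Agent.GPF

open Finset

theorem not_holds (f g : ℝ → ℝ) (n : ℕ) (y z : ℕ)
    (hf : ∀ a : ℕ, 2 ≤ a → a < 2 ^ (n + 1) → f (Real.log a) < y + 1)
    (hfz : ∀ a : ℕ, 2 ≤ a → a < 2 ^ (n + 1) → f (Real.log a) < z + 1)
    (hgz : ∀ a : ℕ, 2 ≤ a → a < 2 ^ (n + 1) → g (Real.log a) < z + 1)
    (h : ¬ Holds f g n) : CloseSmooth y z n := by
  unfold Holds at h
  push Not at h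
  obtain ⟨a, b, p, ha2, ha, ha', hab, hpa, hpb, hc⟩ := h
  have hsmooth : (p : ℝ) ≤ f (Real.log a) → ∀ q : ℕ, q.Prime → q ∣ a * b → q ≤ y := by
    intro hp q hq hd
    have h1 : q ≤ p := by
      rcases (Nat.Prime.dvd_mul hq).1 hd with h | h
      · exact hpa.2.2 q hq h
      · exact hpb.2.2 q hq h
    have h2 : (p : ℝ) < y + 1 := hp.trans_lt (hf a ha2 ha')
    have h3 : p < y + 1 := by exact_mod_cast h2
    omega
  by_cases hcase : f (Real.log a) < (b : ℝ) - a
  · obtain ⟨hp, hb⟩ := hc hcase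
    refine ⟨a, b, ha, ha', hab, ?_, hsmooth hp⟩
    have h1 : (b : ℝ) - a < z + 1 := hb.trans_lt (hgz a ha2 ha')
    have h2 : (b : ℝ) < ((a + z + 1 : ℕ) : ℝ) := by push_cast; linarith
    have h3 : b < a + z + 1 := by exact_mod_cast h2
    omega
  · push Not at hcase
    have hpab : p ≤ b - a := by
      apply Nat.le_of_dvd (by omega)
      exact Nat.dvd_sub hpb.2.1 hpa.2.1
    have hp : (p : ℝ) ≤ f (Real.log a) := by
      refine le_trans ?_ hcase
      have h1 : (p : ℝ) ≤ ((b - a : ℕ) : ℝ) := by exact_mod_cast hpab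
      rwa [Nat.cast_sub hab.le] at h1
    refine ⟨a, b, ha, ha', hab, ?_, hsmooth hp⟩
    have h1 : (b : ℝ) - a < z + 1 := hcase.trans_lt (hfz a ha2 ha')
    have h2 : (b : ℝ) < ((a + z + 1 : ℕ) : ℝ) := by push_cast; linarith
    have h3 : b < a + z + 1 := by exact_mod_cast h2
    omega

theorem log_le_scale {n N a : ℕ} (hn : n < N) (ha2 : 2 ≤ a) (ha : a < 2 ^ (n + 1)) :
    0 ≤ Real.log a ∧ Real.log a ≤ N := by
  have h1 : (1 : ℝ) ≤ a := by exact_mod_cast (by omega : 1 ≤ a)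
  refine ⟨Real.log_nonneg h1, ?_⟩
  have h2 : a ≤ 2 ^ N := ha.le.trans (Nat.pow_le_pow_right (by norm_num) hn)
  have h3 : (a : ℝ) ≤ 2 ^ N := by exact_mod_cast h2
  have h4 : Real.log a ≤ N * Real.log 2 := by
    rw [← Real.log_pow]
    exact Real.log_le_log (by linarith) h3
  have h5 := Real.log_two_lt_d9
  have h6 : (0 : ℝ) ≤ N := by positivity
  nlinarith

theorem trivial_count (N : ℕ) (P : ℕ → Prop) :
    (({n : ℕ | n < N ∧ P n}.ncard : ℕ) : ℝ) ≤ N := by
  have h1 : {n : ℕ | n < N ∧ P n}.ncard ≤ ((range N : Finset ℕ) : Set ℕ).ncard := by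
    apply Set.ncard_le_ncard _ (Finset.finite_toSet _)
    intro n hn
    rw [Finset.mem_coe, mem_range]
    exact hn.1
  rw [Set.ncard_coe_finset, card_range] at h1
  exact_mod_cast h1

theorem count_le (N y z : ℕ) (f g : ℝ → ℝ) (hy : 2 ≤ y) (hyN : y ≤ N) (hz : 1 ≤ z)
    (h : ∀ n < N, ¬ Holds f g n → CloseSmooth y z n) :
    (({n : ℕ | n < N ∧ ¬ Holds f g n}.ncard : ℕ) : ℝ) ≤
      300 * y / Real.log y * (Real.log N + Real.log z) := by
  refine le_trans ?_ (uniform N y z hy hyN hz)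
  have h1 : {n : ℕ | n < N ∧ ¬ Holds f g n}.ncard ≤ {n : ℕ | n < N ∧ CloseSmooth y z n}.ncard := by
    apply Set.ncard_le_ncard
    · intro n hn
      exact ⟨hn.1, h n hn.1 hn.2⟩
    · exact (Set.finite_lt_nat N).subset fun n hn => hn.1
  exact_mod_cast h1

theorem power (C A : ℝ) (hC : 0 < C) (hC1 : C < 1) (hA : 0 < A) :
    ∃ K : ℝ, ∀ N : ℕ, 1 ≤ N →
      (({n : ℕ | n < N ∧ ¬ Holds (fun x => x ^ C) (fun x => x ^ A) n}.ncard : ℕ) : ℝ) ≤
        K * (N : ℝ) ^ C := by
  refine ⟨600 * (2 + A) / C + 4 ^ (1 / C), fun N hN => ?_⟩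
  have hN1 : (1 : ℝ) ≤ N := by exact_mod_cast hN
  have hN0 : (0 : ℝ) < N := by linarith
  have hNC : 1 ≤ (N : ℝ) ^ C := Real.one_le_rpow hN1 hC.le
  have hK1 : 0 ≤ 600 * (2 + A) / C := by positivity
  have hK2 : (0 : ℝ) < 4 ^ (1 / C) := by positivity
  rcases lt_or_ge ((N : ℝ) ^ C) 4 with h4 | h4
  · have h1 : (N : ℝ) ≤ 4 ^ (1 / C) := by
      have h2 : ((N : ℝ) ^ C) ^ (1 / C) = N := by
        rw [← Real.rpow_mul hN0.le, mul_one_div, div_self hC.ne', Real.rpow_one]
      rw [← h2]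
      exact Real.rpow_le_rpow (by positivity) h4.le (by positivity)
    calc (({n : ℕ | n < N ∧ ¬ Holds (fun x => x ^ C) (fun x => x ^ A) n}.ncard : ℕ) : ℝ) ≤ N :=
          trivial_count N _
      _ ≤ 4 ^ (1 / C) := h1
      _ ≤ (600 * (2 + A) / C + 4 ^ (1 / C)) * (N : ℝ) ^ C := by nlinarith
  · set y : ℕ := ⌊(N : ℝ) ^ C⌋₊ with hy
    set z : ℕ := ⌊(N : ℝ) ^ (1 + A)⌋₊ with hz
    have hy2 : 2 ≤ y := Nat.le_floor (by push_cast; linarith)
    have hyC : (y : ℝ) ≤ (N : ℝ) ^ C := Nat.floor_le (by positivity)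
    have hyN : y ≤ N := by
      have h1 : (N : ℝ) ^ C ≤ (N : ℝ) ^ (1 : ℝ) := Real.rpow_le_rpow_of_exponent_le hN1 hC1.le
      rw [Real.rpow_one] at h1
      exact_mod_cast hyC.trans h1
    have hNA : 1 ≤ (N : ℝ) ^ (1 + A) := Real.one_le_rpow hN1 (by linarith)
    have hz1 : 1 ≤ z := Nat.le_floor (by push_cast; linarith)
    have hzA : (z : ℝ) ≤ (N : ℝ) ^ (1 + A) := Nat.floor_le (by positivity)
    have hcount := count_le N y z (fun x => x ^ C) (fun x => x ^ A) hy2 hyN hz1 (by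
      intro n hn h
      refine not_holds _ _ n y z ?_ ?_ ?_ h
      · intro a ha2 ha
        obtain ⟨h1, h2⟩ := log_le_scale hn ha2 ha
        exact (Real.rpow_le_rpow h1 h2 hC.le).trans_lt (Nat.lt_floor_add_one _)
      · intro a ha2 ha
        obtain ⟨h1, h2⟩ := log_le_scale hn ha2 ha
        refine ((Real.rpow_le_rpow h1 h2 hC.le).trans ?_).trans_lt (Nat.lt_floor_add_one _)
        exact Real.rpow_le_rpow_of_exponent_le hN1 (by linarith)
      · intro a ha2 ha
        obtain ⟨h1, h2⟩ := log_le_scale hn ha2 ha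
        refine ((Real.rpow_le_rpow h1 h2 hA.le).trans ?_).trans_lt (Nat.lt_floor_add_one _)
        exact Real.rpow_le_rpow_of_exponent_le hN1 (by linarith))
    refine hcount.trans ?_
    have hLN : 0 < Real.log N := by
      apply Real.log_pos
      rcases eq_or_lt_of_le hN1 with h | h
      · rw [← h, Real.one_rpow] at h4
        norm_num at h4
      · exact h
    have hLy : C / 2 * Real.log N ≤ Real.log y := by
      have h1 : (N : ℝ) ^ (C / 2) ≤ y := by
        have h2 : (N : ℝ) ^ C < y + 1 := Nat.lt_floor_add_one _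
        have h3 : (N : ℝ) ^ C = (N : ℝ) ^ (C / 2) * (N : ℝ) ^ (C / 2) := by
          rw [← Real.rpow_add hN0]
          congr 1
          ring
        have h5 : 2 ≤ (N : ℝ) ^ (C / 2) := by
          have h6 : 0 < (N : ℝ) ^ (C / 2) := by positivity
          nlinarith
        nlinarith
      calc C / 2 * Real.log N = Real.log ((N : ℝ) ^ (C / 2)) := by rw [Real.log_rpow hN0]
        _ ≤ Real.log y := Real.log_le_log (by positivity) h1
    have hLz : Real.log z ≤ (1 + A) * Real.log N := by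
      rw [← Real.log_rpow hN0]
      exact Real.log_le_log (by exact_mod_cast hz1) hzA
    have hLy0 : 0 < Real.log y := lt_of_lt_of_le (by positivity) hLy
    have h1 : 300 * (y : ℝ) / Real.log y ≤ 300 * (N : ℝ) ^ C / (C / 2 * Real.log N) :=
      div_le_div₀ (by positivity) (by linarith) (by positivity) hLy
    have h2 : Real.log N + Real.log z ≤ (2 + A) * Real.log N := by linarith
    have h2' : 0 ≤ Real.log N + Real.log z := by
      have := Real.log_nonneg (show (1 : ℝ) ≤ z by exact_mod_cast hz1)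
      linarith
    calc 300 * (y : ℝ) / Real.log y * (Real.log N + Real.log z)
        ≤ 300 * (N : ℝ) ^ C / (C / 2 * Real.log N) * ((2 + A) * Real.log N) :=
          mul_le_mul h1 h2 h2' (by positivity)
      _ = 600 * (2 + A) / C * (N : ℝ) ^ C := by
          field_simp
          ring
      _ ≤ (600 * (2 + A) / C + 4 ^ (1 / C)) * (N : ℝ) ^ C := by nlinarith

end Pool.Agent.GPF
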