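import Mathlib

/-!
# Well separated close pairs of smooth integers

The rank of the group of the rational numbers composed of the primes `≤ y` is `π(y)`. By Siegel's lemma
`2 π(y)` such numbers satisfy a multiplicative relation with small exponents, so their logarithms cannot
be well separated.
-/

set_option autoImplicit false

namespace Pool.Agent.GPF

open Finset

attribute [local instance] Matrix.seminormedAddCommGroup

theorem siegel_int (S : Finset ℕ) (hS : 0 < S.card) (A : S → Fin (2 * S.card) → ℤ) (M : ℕ)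
    (hM : 1 ≤ M) (hA : ∀ q i, |A q i| ≤ M) :
    ∃ t : Fin (2 * S.card) → ℤ, t ≠ 0 ∧ (∀ q, ∑ i, A q i * t i = 0) ∧
      ∀ i, (|t i| : ℤ) ≤ 2 * S.card * M := by
  obtain ⟨t, ht0, ht1, ht2⟩ := Int.Matrix.exists_ne_zero_int_vec_norm_le (Matrix.of A)
    (by simp only [Fintype.card_coe, Fintype.card_fin]; omega)
    (by simp only [Fintype.card_coe]; omega)
  refine ⟨t, ht0, fun q => ?_, fun i => ?_⟩
  · have := congrFun ht1 q
    simpa [Matrix.mulVec, dotProduct] using this
  · have hs : (0 : ℝ) < S.card := by exact_mod_cast hS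
    have h1 : ‖Matrix.of A‖ ≤ (M : ℝ) := by
      rw [Matrix.norm_le_iff (by positivity)]
      intro q i
      rw [Matrix.of_apply, Int.norm_eq_abs]
      exact_mod_cast hA q i
    have h2 : max 1 ‖Matrix.of A‖ ≤ (M : ℝ) := max_le (by exact_mod_cast hM) h1
    have h3 : ((Fintype.card S : ℝ) / ((Fintype.card (Fin (2 * S.card)) : ℝ) - Fintype.card S)) = 1 := by
      simp only [Fintype.card_coe, Fintype.card_fin]
      push_cast
      rw [show (2 * (S.card : ℝ) - S.card) = S.card by ring]
      exact div_self hs.ne'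
    rw [h3, Real.rpow_one, Fintype.card_fin] at ht2
    have h4 : ‖t i‖ ≤ ‖t‖ := norm_le_pi_norm t i
    rw [Int.norm_eq_abs] at h4
    have h5 : ((2 * S.card : ℕ) : ℝ) * max 1 ‖Matrix.of A‖ ≤ ((2 * S.card : ℕ) : ℝ) * M :=
      mul_le_mul_of_nonneg_left h2 (by positivity)
    have h6 : |(t i : ℝ)| ≤ ((2 * S.card : ℕ) : ℝ) * M := h4.trans (ht2.trans h5)
    have h7 : ((|t i| : ℤ) : ℝ) ≤ ((2 * S.card * M : ℤ) : ℝ) := by
      push_cast at h6 ⊢
      exact h6
    exact_mod_cast h7

theorem log_smooth (S : Finset ℕ) (n : ℕ)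
    (hs : ∀ q : ℕ, q.Prime → q ∣ n → q ∈ S) :
    Real.log n = ∑ q ∈ S, (n.factorization q : ℝ) * Real.log q := by
  rw [Real.log_nat_eq_sum_factorization, Finsupp.sum]
  apply Finset.sum_subset
  · intro q hq
    rw [Nat.support_factorization, Nat.mem_primeFactors] at hq
    exact hs q hq.1 hq.2.1
  · intro q _ hq
    rw [Finsupp.notMem_support_iff.1 hq]
    simp

theorem core (z M : ℕ) (hz : 1 ≤ z) (S : Finset ℕ) (hS : 0 < S.card) (hSp : ∀ q ∈ S, q.Prime)
    (a b : Fin (2 * S.card) → ℕ) (hza : ∀ i, z ≤ a i) (hab : ∀ i, a i < b i)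
    (hba : ∀ i, b i ≤ a i + z) (hsm : ∀ i, ∀ q, q.Prime → q ∣ a i * b i → q ∈ S)
    (hM : ∀ i, b i < 2 ^ M)
    (hsep : ∀ i j, i < j → (2 * (2 * S.card) ^ 2 * M * z + 1) * a i ≤ a j) : False := by
  have ha0 : ∀ i, 0 < a i := fun i => by have := hza i; omega
  have hb0 : ∀ i, 0 < b i := fun i => by have := hab i; omega
  have hM1 : 1 ≤ M := by
    rcases Nat.eq_zero_or_pos M with h | h
    · have h1 := hM ⟨0, by omega⟩
      have h2 := hb0 ⟨0, by omega⟩
      rw [h] at h1
      omega
    · exact h
  -- the exponents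
  have hval : ∀ (n : ℕ), 0 < n → n < 2 ^ M → ∀ q ∈ S, n.factorization q < M := by
    intro n hn hnM q hq
    have h1 : q ^ n.factorization q ∣ n := Nat.ordProj_dvd n q
    have h2 : q ^ n.factorization q ≤ n := Nat.le_of_dvd hn h1
    have h3 : 2 ^ n.factorization q ≤ q ^ n.factorization q :=
      Nat.pow_le_pow_left (hSp q hq).two_le _
    by_contra h4
    push Not at h4
    have h5 : 2 ^ M ≤ 2 ^ n.factorization q := Nat.pow_le_pow_right (by norm_num) h4
    omega
  obtain ⟨t, ht0, ht1, ht2⟩ := siegel_int S hS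
    (fun q i => ((b i).factorization q : ℤ) - ((a i).factorization q : ℤ)) M hM1 (by
      intro q i
      have h1 := hval (b i) (hb0 i) (hM i) q q.2
      have h2 := hval (a i) (ha0 i) (by have := hab i; have := hM i; omega) q q.2
      rw [abs_le]
      constructor <;> omega)
  -- the logarithms
  set lam : Fin (2 * S.card) → ℝ := fun i => Real.log (b i) - Real.log (a i) with hlam
  have hlamsum : ∀ i, lam i = ∑ q ∈ S, (((b i).factorization q : ℝ) - (a i).factorization q) *
      Real.log q := by
    intro i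
    have h1 := log_smooth S (b i) (fun q hq hd =>
      hsm i q hq (Dvd.dvd.mul_left hd _))
    have h2 := log_smooth S (a i) (fun q hq hd =>
      hsm i q hq (Dvd.dvd.mul_right hd _))
    simp only [hlam]
    rw [h1, h2, ← Finset.sum_sub_distrib]
    exact Finset.sum_congr rfl fun q _ => by ring
  have hrel : ∑ i, (t i : ℝ) * lam i = 0 := by
    have h1 : ∀ i, (t i : ℝ) * lam i = ∑ q ∈ S, (t i : ℝ) *
        ((((b i).factorization q : ℝ) - (a i).factorization q) * Real.log q) := by
      intro i
      rw [hlamsum i, Finset.mul_sum]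
    rw [Finset.sum_congr rfl fun i _ => h1 i, Finset.sum_comm]
    refine Finset.sum_eq_zero fun q hq => ?_
    have h2 := ht1 ⟨q, hq⟩
    have h3 : ∑ i, (((b i).factorization q : ℝ) - ((a i).factorization q : ℝ)) * (t i : ℝ) = 0 := by
      have := congrArg (fun z : ℤ => (z : ℝ)) h2
      push_cast at this
      exact this
    calc ∑ i, (t i : ℝ) * ((((b i).factorization q : ℝ) - (a i).factorization q) * Real.log q)
        = (∑ i, (((b i).factorization q : ℝ) - (a i).factorization q) * (t i : ℝ)) *
          Real.log q := by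
          rw [Finset.sum_mul]
          exact Finset.sum_congr rfl fun i _ => by ring
      _ = 0 := by rw [h3, zero_mul]
  have hlam_le : ∀ i, lam i ≤ z / a i := by
    intro i
    have ha : (0 : ℝ) < a i := by exact_mod_cast ha0 i
    have hb : (0 : ℝ) < b i := by exact_mod_cast hb0 i
    simp only [hlam]
    rw [← Real.log_div hb.ne' ha.ne']
    have h1 := Real.log_le_sub_one_of_pos (div_pos hb ha)
    have h2 : (b i : ℝ) ≤ a i + z := by exact_mod_cast hba i
    have h3 : (b i : ℝ) / a i - 1 ≤ z / a i := by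
      rw [div_sub_one ha.ne']
      exact div_le_div_of_nonneg_right (by linarith) ha.le
    linarith
  have hlam_ge : ∀ i, 1 / (2 * a i : ℝ) ≤ lam i := by
    intro i
    have ha : (0 : ℝ) < a i := by exact_mod_cast ha0 i
    have hb : (0 : ℝ) < b i := by exact_mod_cast hb0 i
    simp only [hlam]
    have h1 := Real.log_le_sub_one_of_pos (div_pos ha hb)
    rw [Real.log_div ha.ne' hb.ne'] at h1
    have h2 : (a i : ℝ) / b i - 1 ≤ -(1 / (2 * a i)) := by
      have h3 : (a i : ℝ) + 1 ≤ b i := by exact_mod_cast hab i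
      have h4 : (b i : ℝ) ≤ 2 * a i := by
        have h5 : b i ≤ 2 * a i := by have := hba i; have := hza i; omega
        exact_mod_cast h5
      rw [div_sub_one hb.ne']
      have h5 : (a i - b i : ℝ) / b i ≤ -1 / b i :=
        div_le_div_of_nonneg_right (by linarith) hb.le
      have h6 : (1 : ℝ) / (2 * a i) ≤ 1 / b i := one_div_le_one_div_of_le hb h4
      have h7 : (-1 : ℝ) / b i = -(1 / b i) := by ring
      linarith
    linarith
  have hlam_pos : ∀ i, 0 < lam i := fun i => by
    have ha : (0 : ℝ) < a i := by exact_mod_cast ha0 i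
    have := hlam_ge i
    have h1 : (0 : ℝ) < 1 / (2 * a i : ℝ) := by positivity
    linarith
  -- the smallest index
  have hne : (univ.filter fun i => t i ≠ 0).Nonempty := by
    obtain ⟨i, hi⟩ := Function.ne_iff.1 ht0
    exact ⟨i, by simpa using hi⟩
  set j := (univ.filter fun i => t i ≠ 0).min' hne with hj
  have hjt : t j ≠ 0 := by
    have := Finset.min'_mem _ hne
    rw [mem_filter] at this
    exact this.2
  have hlt : ∀ i, i < j → t i = 0 := by
    intro i hi
    by_contra h
    have := Finset.min'_le (univ.filter fun i => t i ≠ 0) i (by simpa using h)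
    exact absurd hi (not_lt.2 this)
  have haj : (0 : ℝ) < a j := by exact_mod_cast ha0 j
  set R : ℝ := 2 * (2 * (S.card : ℝ)) ^ 2 * M * z + 1 with hR
  have hRpos : 0 < R := by positivity
  have hterm : ∀ i ∈ univ.erase j, |(t i : ℝ) * lam i| ≤ (2 * S.card * M) * (z / (R * a j)) := by
    intro i hi
    rw [mem_erase] at hi
    rcases lt_or_ge i j with h | h
    · rw [hlt i h]
      simp only [Int.cast_zero, zero_mul, abs_zero]
      positivity
    · have hji : j < i := lt_of_le_of_ne h (Ne.symm hi.1)
      rw [abs_mul, abs_of_pos (hlam_pos i)]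
      have h1 : |(t i : ℝ)| ≤ 2 * S.card * M := by
        have := ht2 i
        have h2 : ((|t i| : ℤ) : ℝ) ≤ ((2 * S.card * M : ℤ) : ℝ) := by exact_mod_cast this
        push_cast at h2
        exact h2
      have h2 : lam i ≤ z / (R * a j) := by
        refine (hlam_le i).trans ?_
        apply div_le_div_of_nonneg_left (by positivity) (by positivity)
        have := hsep j i hji
        have h3 : (((2 * (2 * S.card) ^ 2 * M * z + 1) * a j : ℕ) : ℝ) ≤ a i := by
          exact_mod_cast this
        push_cast at h3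
        exact h3
      exact mul_le_mul h1 h2 (hlam_pos i).le (by positivity)
  have hsum : (t j : ℝ) * lam j = - ∑ i ∈ univ.erase j, (t i : ℝ) * lam i := by
    have := Finset.add_sum_erase univ (fun i => (t i : ℝ) * lam i) (mem_univ j)
    linarith
  have h1 : |(t j : ℝ) * lam j| ≤ (2 * S.card) * ((2 * S.card * M) * (z / (R * a j))) := by
    rw [hsum, abs_neg]
    refine (Finset.abs_sum_le_sum_abs _ _).trans ?_
    refine (Finset.sum_le_card_nsmul _ _ _ hterm).trans ?_
    rw [nsmul_eq_mul]
    apply mul_le_mul_of_nonneg_right _ (by positivity)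
    have h2 : (univ.erase j).card ≤ 2 * S.card := by
      refine (Finset.card_erase_le).trans ?_
      simp
    exact_mod_cast h2
  have h2 : 1 / (2 * a j : ℝ) ≤ |(t j : ℝ) * lam j| := by
    rw [abs_mul, abs_of_pos (hlam_pos j)]
    have h3 : (1 : ℝ) ≤ |(t j : ℝ)| := by
      have := Int.one_le_abs hjt
      exact_mod_cast this
    have h4 := hlam_ge j
    nlinarith [hlam_pos j]
  have h3 : 1 / (2 * a j : ℝ) ≤ (2 * S.card) * ((2 * S.card * M) * (z / (R * a j))) := h2.trans h1
  have h4 : (2 * (S.card : ℝ)) * ((2 * S.card * M) * (z / (R * a j))) =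
      (1 / (2 * a j)) * ((2 * (2 * (S.card : ℝ)) ^ 2 * M * z) / R) := by
    field_simp
  rw [h4] at h3
  have h5 : (2 * (2 * (S.card : ℝ)) ^ 2 * M * z) / R < 1 := by
    rw [div_lt_one hRpos]
    linarith
  have h6 : (0 : ℝ) < 1 / (2 * a j) := by positivity
  nlinarith

end Pool.Agent.GPF
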