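import Pool.Agent.Lib_MP_a076cd.Core

/-!
# A sharper form of the separation argument
-/

set_option autoImplicit false

namespace Pool.Agent.GPF

open Finset

/-- The product of numbers with a given sum. -/
theorem prod_le_pow {ι : Type*} (S : Finset ι) (x : ι → ℝ) (X : ℝ) (hX : 0 < X)
    (hx : ∀ q ∈ S, 0 ≤ x q) (hsum : ∑ q ∈ S, x q ≤ S.card * X) : ∏ q ∈ S, x q ≤ X ^ S.card := by
  have h1 : ∀ q ∈ S, x q ≤ X * Real.exp (x q / X - 1) := by
    intro q _
    have h2 := Real.add_one_le_exp (x q / X - 1)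
    have h3 : x q / X ≤ Real.exp (x q / X - 1) := by linarith
    calc x q = X * (x q / X) := by field_simp
      _ ≤ X * Real.exp (x q / X - 1) := mul_le_mul_of_nonneg_left h3 hX.le
  calc ∏ q ∈ S, x q ≤ ∏ q ∈ S, (X * Real.exp (x q / X - 1)) := Finset.prod_le_prod hx h1
    _ = X ^ S.card * Real.exp (∑ q ∈ S, (x q / X - 1)) := by
        rw [Finset.prod_mul_distrib, Finset.prod_const, Real.exp_sum]
    _ ≤ X ^ S.card * 1 := by
        apply mul_le_mul_of_nonneg_left _ (by positivity)
        rw [Real.exp_le_one_iff, Finset.sum_sub_distrib, ← Finset.sum_div]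
        simp only [Finset.sum_const, nsmul_eq_mul, mul_one]
        have : (∑ q ∈ S, x q) / X ≤ S.card := by
          rw [div_le_iff₀ hX]
          exact hsum
        linarith
    _ = X ^ S.card := mul_one _

/-- Pigeonhole with the sum of all entries. -/
theorem siegel_sum (S : Finset ℕ) (n B D : ℕ) (A : S → Fin n → ℤ)
    (hsum : ∑ q, ∑ i, |A q i| ≤ S.card * D) (hcount : (B * D + 1) ^ S.card < (B + 1) ^ n) :
    ∃ t : Fin n → ℤ, t ≠ 0 ∧ (∀ q, ∑ i, A q i * t i = 0) ∧ ∀ i, |t i| ≤ B := by
  classical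
  set P : S → ℤ := fun q => ∑ i, max (A q i) 0 with hP
  set Ng : S → ℤ := fun q => ∑ i, max (-(A q i)) 0 with hNg
  have hP0 : ∀ q, 0 ≤ P q := fun q => Finset.sum_nonneg fun i _ => le_max_right _ _
  have hN0 : ∀ q, 0 ≤ Ng q := fun q => Finset.sum_nonneg fun i _ => le_max_right _ _
  have hPN : ∀ q, P q + Ng q = ∑ i, |A q i| := by
    intro q
    simp only [hP, hNg]
    rw [← Finset.sum_add_distrib]
    refine Finset.sum_congr rfl fun i _ => ?_
    rcases le_total 0 (A q i) with h | h
    · rw [max_eq_left h, max_eq_right (by omega), abs_of_nonneg h]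
      ring
    · rw [max_eq_right h, max_eq_left (by omega), abs_of_nonpos h]
      ring
  set dom : Finset (Fin n → ℕ) := Fintype.piFinset (fun _ : Fin n => range (B + 1)) with hdom
  set cod : Finset (S → ℤ) :=
    Fintype.piFinset (fun q : S => Finset.Icc (-(B * Ng q)) (B * P q)) with hcod
  have hcard_dom : dom.card = (B + 1) ^ n := by
    rw [hdom, Fintype.card_piFinset]
    simp
  have hcard_cod : cod.card ≤ (B * D + 1) ^ S.card := by
    have h1 : (cod.card : ℝ) = ∏ q : S, ((B : ℝ) * (P q + Ng q : ℤ) + 1) := by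
      rw [hcod, Fintype.card_piFinset, Nat.cast_prod]
      refine Finset.prod_congr rfl fun q _ => ?_
      rw [Int.card_Icc]
      have h2 : 0 ≤ (B : ℤ) * P q + 1 - (-(B * Ng q)) := by
        have := mul_nonneg (Int.natCast_nonneg B) (hP0 q)
        have := mul_nonneg (Int.natCast_nonneg B) (hN0 q)
        omega
      have h3 : (((B : ℤ) * P q + 1 - (-(B * Ng q))).toNat : ℤ) =
          (B : ℤ) * P q + 1 - (-(B * Ng q)) := Int.toNat_of_nonneg h2
      have h4 : ((((B : ℤ) * P q + 1 - (-(B * Ng q))).toNat : ℕ) : ℝ) =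
          (((B : ℤ) * P q + 1 - (-(B * Ng q)) : ℤ) : ℝ) := by
        rw [← h3]
        norm_cast
      rw [h4]
      push_cast
      ring
    have h2 : ∏ q : S, ((B : ℝ) * (P q + Ng q : ℤ) + 1) ≤
        ((B : ℝ) * D + 1) ^ (univ : Finset S).card := by
      apply prod_le_pow
      · positivity
      · intro q _
        have : (0 : ℝ) ≤ ((P q + Ng q : ℤ) : ℝ) := by
          have := hP0 q
          have := hN0 q
          exact_mod_cast (by omega : 0 ≤ P q + Ng q)
        positivity
      · rw [Finset.sum_add_distrib, ← Finset.mul_sum]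
        simp only [Finset.sum_const, nsmul_eq_mul, mul_one]
        have h3 : (∑ q : S, ((P q + Ng q : ℤ) : ℝ)) ≤ (S.card : ℝ) * D := by
          have h4 : (∑ q : S, (P q + Ng q)) ≤ (S.card : ℤ) * D := by
            rw [Finset.sum_congr rfl fun q _ => hPN q]
            exact hsum
          have h5 : ((∑ q : S, (P q + Ng q) : ℤ) : ℝ) ≤ (((S.card : ℤ) * D : ℤ) : ℝ) := by
            exact_mod_cast h4
          push_cast at h5 ⊢
          exact h5
        rw [Finset.card_univ, Fintype.card_coe]
        nlinarith [mul_le_mul_of_nonneg_left h3 (Nat.cast_nonneg (α := ℝ) B)]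
    rw [Finset.card_univ, Fintype.card_coe] at h2
    rw [← h1] at h2
    exact_mod_cast h2
  have hlt : cod.card < dom.card := by
    rw [hcard_dom]
    exact lt_of_le_of_lt hcard_cod hcount
  have hmap : ∀ c ∈ dom, (fun q => ∑ i, A q i * (c i : ℤ)) ∈ cod := by
    intro c hc
    rw [hdom, Fintype.mem_piFinset] at hc
    rw [hcod, Fintype.mem_piFinset]
    intro q
    rw [Finset.mem_Icc]
    have hb : ∀ i, (c i : ℤ) ≤ B := fun i => by
      have := hc i
      rw [mem_range] at this
      omega
    constructor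
    · have h1 : -(B * Ng q : ℤ) = ∑ i, -((B : ℤ) * max (-(A q i)) 0) := by
        rw [Finset.sum_neg_distrib, ← Finset.mul_sum]
      rw [h1]
      refine Finset.sum_le_sum fun i _ => ?_
      have h2 := hb i
      have h3 : (0 : ℤ) ≤ c i := Int.natCast_nonneg _
      rcases le_total 0 (A q i) with h | h
      · rw [max_eq_right (by omega)]
        have := mul_nonneg h h3
        linarith
      · rw [max_eq_left (by omega)]
        nlinarith
    · have h1 : (B * P q : ℤ) = ∑ i, ((B : ℤ) * max (A q i) 0) := by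
        rw [← Finset.mul_sum]
      rw [h1]
      refine Finset.sum_le_sum fun i _ => ?_
      have h2 := hb i
      have h3 : (0 : ℤ) ≤ c i := Int.natCast_nonneg _
      rcases le_total 0 (A q i) with h | h
      · rw [max_eq_left h]
        nlinarith
      · rw [max_eq_right h]
        nlinarith
  obtain ⟨c, hc, d, hd, hcd, he⟩ := Finset.exists_ne_map_eq_of_card_lt_of_maps_to hlt hmap
  refine ⟨fun i => (c i : ℤ) - d i, ?_, ?_, ?_⟩
  · intro h
    apply hcd
    funext i
    have := congrFun h i
    simp only [Pi.zero_apply] at this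
    omega
  · intro q
    have h1 : ∑ i, A q i * (c i : ℤ) = ∑ i, A q i * (d i : ℤ) := congrFun he q
    have h2 : ∑ i, A q i * ((c i : ℤ) - d i) = ∑ i, A q i * (c i : ℤ) - ∑ i, A q i * (d i : ℤ) := by
      rw [← Finset.sum_sub_distrib]
      exact Finset.sum_congr rfl fun i _ => by ring
    rw [h2, h1, sub_self]
  · intro i
    rw [hdom, Fintype.mem_piFinset] at hc hd
    have h1 := hc i
    have h2 := hd i
    rw [mem_range] at h1 h2
    show |(c i : ℤ) - d i| ≤ B
    rw [abs_le]
    constructor <;> omega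

/-- Sum of the inverses of well separated numbers. -/
theorem sum_inv_le (n : ℕ) (f : ℕ → ℝ) (r : ℝ)
    (hsep : ∀ i, i + 1 < n → r / f (i + 1) ≤ 1 / f i - 1 / f (i + 1)) (j k : ℕ) (hjk : j + k < n) :
    r * ∑ i ∈ range k, 1 / f (j + 1 + i) ≤ 1 / f j - 1 / f (j + k) := by
  induction k with
  | zero => simp
  | succ k ih =>
    rw [Finset.sum_range_succ, mul_add]
    have h1 := ih (by omega)
    have h2 := hsep (j + k) (by omega)
    have h3 : f (j + 1 + k) = f (j + k + 1) := by congr 1; omega
    have h4 : f (j + (k + 1)) = f (j + k + 1) := by congr 1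
    rw [h3, h4]
    have h5 : r * (1 / f (j + k + 1)) = r / f (j + k + 1) := by ring
    rw [h5]
    linarith

theorem sum_factorization_le (S : Finset ℕ) (hSp : ∀ q ∈ S, q.Prime) (n M : ℕ) (hn : n ≠ 0)
    (hs : ∀ q : ℕ, q.Prime → q ∣ n → q ∈ S) (hM : n < 2 ^ M) :
    ∑ q ∈ S, n.factorization q ≤ M := by
  have h1 := log_smooth S n hs
  have hl2 : 0 < Real.log 2 := Real.log_pos (by norm_num)
  have h2 : ((∑ q ∈ S, n.factorization q : ℕ) : ℝ) * Real.log 2 ≤ Real.log n := by
    rw [h1, Nat.cast_sum, Finset.sum_mul]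
    refine Finset.sum_le_sum fun q hq => ?_
    apply mul_le_mul_of_nonneg_left _ (by positivity)
    apply Real.log_le_log (by norm_num)
    exact_mod_cast (hSp q hq).two_le
  have h3 : Real.log n ≤ M * Real.log 2 := by
    rw [← Real.log_pow]
    apply Real.log_le_log
    · exact_mod_cast Nat.pos_of_ne_zero hn
    · exact_mod_cast hM.le
  have h4 : ((∑ q ∈ S, n.factorization q : ℕ) : ℝ) ≤ M := by
    have := h2.trans h3
    exact le_of_mul_le_mul_right this hl2
  exact_mod_cast h4

theorem core2 (S : Finset ℕ) (hSp : ∀ q ∈ S, q.Prime) (n B D M z₁ z₂ R : ℕ)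
    (a b : Fin n → ℕ) (hz : 1 ≤ z₁) (hza : ∀ i, z₂ ≤ a i) (hab : ∀ i, a i + z₁ ≤ b i)
    (hba : ∀ i, b i ≤ a i + z₂) (hsm : ∀ i, ∀ q, q.Prime → q ∣ a i * b i → q ∈ S)
    (hM : ∀ i, b i < 2 ^ M) (hD : 2 * M * n ≤ S.card * D)
    (hcount : (B * D + 1) ^ S.card < (B + 1) ^ n) (hR1 : 2 ≤ R) (hR : 2 * B * z₂ < (R - 1) * z₁)
    (hsep : ∀ i j, i < j → R * a i ≤ a j) : False := by
  have hz12 : ∀ i, z₁ ≤ z₂ := fun i => by have := hab i; have := hba i; omega
  have ha0 : ∀ i, 0 < a i := fun i => by have := hza i; have := hz12 i; omega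
  have hb0 : ∀ i, 0 < b i := fun i => by have := hab i; omega
  have hsa : ∀ i, ∀ q, q.Prime → q ∣ a i → q ∈ S := fun i q hq hd =>
    hsm i q hq (Dvd.dvd.mul_right hd _)
  have hsb : ∀ i, ∀ q, q.Prime → q ∣ b i → q ∈ S := fun i q hq hd =>
    hsm i q hq (Dvd.dvd.mul_left hd _)
  obtain ⟨t, ht0, ht1, ht2⟩ := siegel_sum S n B D
    (fun q i => ((b i).factorization q : ℤ) - ((a i).factorization q : ℤ)) (by
      rw [Finset.sum_comm]
      have h1 : ∀ i : Fin n, ∑ q : S, |((b i).factorization q : ℤ) - ((a i).factorization q : ℤ)| ≤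
          2 * M := by
        intro i
        have h2 := sum_factorization_le S hSp (b i) M (hb0 i).ne' (hsb i) (hM i)
        have h3 := sum_factorization_le S hSp (a i) M (ha0 i).ne' (hsa i)
          (by have := hab i; have := hM i; omega)
        have h4 : ∑ q : S, |((b i).factorization q : ℤ) - ((a i).factorization q : ℤ)| ≤
            ∑ q : S, (((b i).factorization q : ℤ) + ((a i).factorization q : ℤ)) := by
          refine Finset.sum_le_sum fun q _ => ?_
          rw [abs_le]
          constructor <;> omega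
        refine h4.trans ?_
        rw [Finset.sum_add_distrib]
        have h5 : ∑ q : S, ((b i).factorization q : ℤ) = ((∑ q ∈ S, (b i).factorization q : ℕ) : ℤ) := by
          rw [Nat.cast_sum]
          exact Finset.sum_coe_sort S (fun q => ((b i).factorization q : ℤ))
        have h6 : ∑ q : S, ((a i).factorization q : ℤ) = ((∑ q ∈ S, (a i).factorization q : ℕ) : ℤ) := by
          rw [Nat.cast_sum]
          exact Finset.sum_coe_sort S (fun q => ((a i).factorization q : ℤ))
        rw [h5, h6]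
        omega
      refine (Finset.sum_le_sum fun i _ => h1 i).trans ?_
      simp only [Finset.sum_const, Finset.card_univ, Fintype.card_fin, nsmul_eq_mul]
      have : ((2 * M * n : ℕ) : ℤ) ≤ ((S.card * D : ℕ) : ℤ) := by exact_mod_cast hD
      push_cast at this
      nlinarith) hcount
  set lam : Fin n → ℝ := fun i => Real.log (b i) - Real.log (a i) with hlam
  have hlamsum : ∀ i, lam i = ∑ q ∈ S, (((b i).factorization q : ℝ) - (a i).factorization q) *
      Real.log q := by
    intro i
    have h1 := log_smooth S (b i) (hsb i)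
    have h2 := log_smooth S (a i) (hsa i)
    simp only [hlam]
    rw [h1, h2, ← Finset.sum_sub_distrib]
    exact Finset.sum_congr rfl fun q _ => by ring
  have hrel : ∑ i, (t i : ℝ) * lam i = 0 := by
    have h1 : ∀ i, (t i : ℝ) * lam i = ∑ q ∈ S, (t i : ℝ) *
        ((((b i).factorization q : ℝ) - (a i).factorization q) * Real.log q) := by
      intro i
      rw [hlamsum i, Finset.mul_sum]
    rw [Finset.sum_congr rfl fun i _ => h1 i, Finset.sum_comm]
    refine Finset.sum_eq_zero fun q hq => ?_
    have h2 := ht1 ⟨q, hq⟩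
    have h3 : ∑ i, (((b i).factorization q : ℝ) - ((a i).factorization q : ℝ)) * (t i : ℝ) = 0 := by
      have := congrArg (fun z : ℤ => (z : ℝ)) h2
      push_cast at this
      exact this
    calc ∑ i, (t i : ℝ) * ((((b i).factorization q : ℝ) - (a i).factorization q) * Real.log q)
        = (∑ i, (((b i).factorization q : ℝ) - (a i).factorization q) * (t i : ℝ)) *
          Real.log q := by
          rw [Finset.sum_mul]
          exact Finset.sum_congr rfl fun i _ => by ring
      _ = 0 := by rw [h3, zero_mul]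
  have hlam_le : ∀ i, lam i ≤ z₂ / a i := by
    intro i
    have ha : (0 : ℝ) < a i := by exact_mod_cast ha0 i
    have hb : (0 : ℝ) < b i := by exact_mod_cast hb0 i
    simp only [hlam]
    rw [← Real.log_div hb.ne' ha.ne']
    have h1 := Real.log_le_sub_one_of_pos (div_pos hb ha)
    have h2 : (b i : ℝ) ≤ a i + z₂ := by exact_mod_cast hba i
    have h3 : (b i : ℝ) / a i - 1 ≤ z₂ / a i := by
      rw [div_sub_one ha.ne']
      exact div_le_div_of_nonneg_right (by linarith) ha.le
    linarith
  have hlam_ge : ∀ i, z₁ / (2 * a i : ℝ) ≤ lam i := by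
    intro i
    have ha : (0 : ℝ) < a i := by exact_mod_cast ha0 i
    have hb : (0 : ℝ) < b i := by exact_mod_cast hb0 i
    simp only [hlam]
    have h1 := Real.log_le_sub_one_of_pos (div_pos ha hb)
    rw [Real.log_div ha.ne' hb.ne'] at h1
    have h2 : (a i : ℝ) / b i - 1 ≤ -(z₁ / (2 * a i)) := by
      have h3 : (a i : ℝ) + z₁ ≤ b i := by exact_mod_cast hab i
      have h4 : (b i : ℝ) ≤ 2 * a i := by
        have h5 : b i ≤ 2 * a i := by have := hba i; have := hza i; omega
        exact_mod_cast h5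
      rw [div_sub_one hb.ne']
      have h5 : (a i - b i : ℝ) / b i ≤ -z₁ / b i :=
        div_le_div_of_nonneg_right (by linarith) hb.le
      have h6 : (z₁ : ℝ) / (2 * a i) ≤ z₁ / b i :=
        div_le_div_of_nonneg_left (by positivity) hb h4
      have h7 : (-z₁ : ℝ) / b i = -(z₁ / b i) := by ring
      linarith
    linarith
  have hz1r : (1 : ℝ) ≤ z₁ := by exact_mod_cast hz
  have hlam_pos : ∀ i, 0 < lam i := fun i => by
    have ha : (0 : ℝ) < a i := by exact_mod_cast ha0 i
    have := hlam_ge i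
    have h1 : (0 : ℝ) < z₁ / (2 * a i : ℝ) := by positivity
    linarith
  -- the smallest index
  have hne : (univ.filter fun i => t i ≠ 0).Nonempty := by
    obtain ⟨i, hi⟩ := Function.ne_iff.1 ht0
    exact ⟨i, by simpa using hi⟩
  set j := (univ.filter fun i => t i ≠ 0).min' hne with hj
  have hjt : t j ≠ 0 := by
    have := Finset.min'_mem _ hne
    rw [mem_filter] at this
    exact this.2
  have hlt : ∀ i, i < j → t i = 0 := by
    intro i hi
    by_contra h
    have := Finset.min'_le (univ.filter fun i => t i ≠ 0) i (by simpa using h)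
    exact absurd hi (not_lt.2 this)
  have haj : (0 : ℝ) < a j := by exact_mod_cast ha0 j
  -- the sum of the inverses
  set f : ℕ → ℝ := fun i => if h : i < n then (a ⟨i, h⟩ : ℝ) else 1 with hf
  have hfi : ∀ i : Fin n, f i = a i := by
    intro i
    simp only [hf]
    rw [dif_pos i.2]
  have hfpos : ∀ i, 0 < f i := by
    intro i
    simp only [hf]
    split_ifs with h
    · exact_mod_cast ha0 _
    · norm_num
  have hR1r : (2 : ℝ) ≤ R := by exact_mod_cast hR1
  have hsepf : ∀ i, i + 1 < n → ((R : ℝ) - 1) / f (i + 1) ≤ 1 / f i - 1 / f (i + 1) := by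
    intro i hi
    have h1 := hsep ⟨i, by omega⟩ ⟨i + 1, hi⟩ (by rw [Fin.mk_lt_mk]; omega)
    have h2 : f i = a ⟨i, by omega⟩ := by simp only [hf]; rw [dif_pos (by omega : i < n)]
    have h3 : f (i + 1) = a ⟨i + 1, hi⟩ := by simp only [hf]; rw [dif_pos hi]
    have h4 : (R : ℝ) * f i ≤ f (i + 1) := by
      rw [h2, h3]
      exact_mod_cast h1
    have h5 := hfpos i
    have h6 := hfpos (i + 1)
    have h7 : (R : ℝ) / f (i + 1) ≤ 1 / f i := by
      rw [div_le_div_iff₀ h6 h5]
      linarith
    have h8 : ((R : ℝ) - 1) / f (i + 1) = R / f (i + 1) - 1 / f (i + 1) := by ring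
    rw [h8]
    linarith
  have hjn := j.2
  have htail := sum_inv_le n f ((R : ℝ) - 1) hsepf j (n - 1 - j) (by omega)
  have hsum : (t j : ℝ) * lam j = - ∑ i ∈ univ.erase j, (t i : ℝ) * lam i := by
    have := Finset.add_sum_erase univ (fun i => (t i : ℝ) * lam i) (mem_univ j)
    linarith
  have hbound : |(t j : ℝ) * lam j| ≤ B * z₂ * ∑ i ∈ range (n - 1 - j), 1 / f (j + 1 + i) := by
    rw [hsum, abs_neg]
    refine (Finset.abs_sum_le_sum_abs _ _).trans ?_
    have h1 : ∑ i ∈ univ.erase j, |(t i : ℝ) * lam i| ≤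
        ∑ i ∈ univ.filter (fun i : Fin n => j < i), (B * z₂ : ℝ) * (1 / f i) := by
      have h2 : univ.filter (fun i : Fin n => j < i) ⊆ univ.erase j := by
        intro i hi
        rw [mem_filter] at hi
        rw [mem_erase]
        exact ⟨hi.2.ne', mem_univ _⟩
      rw [← Finset.sum_subset h2 (f := fun i => |(t i : ℝ) * lam i|)]
      · refine Finset.sum_le_sum fun i _ => ?_
        rw [abs_mul, abs_of_pos (hlam_pos i)]
        have h3 : |(t i : ℝ)| ≤ B := by
          have := ht2 i
          have h4 : ((|t i| : ℤ) : ℝ) ≤ ((B : ℤ) : ℝ) := by exact_mod_cast this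
          push_cast at h4
          exact h4
        have h4 := hlam_le i
        rw [← hfi i] at h4
        calc |(t i : ℝ)| * lam i ≤ B * (z₂ / f i) :=
              mul_le_mul h3 h4 (hlam_pos i).le (by positivity)
          _ = (B * z₂ : ℝ) * (1 / f i) := by ring
      · intro i hi hi'
        rw [mem_erase] at hi
        rw [mem_filter] at hi'
        push Not at hi'
        have h3 : i < j := lt_of_le_of_ne (hi' (mem_univ _)) hi.1
        rw [hlt i h3]
        simp
    refine h1.trans ?_
    rw [← Finset.mul_sum]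
    apply mul_le_mul_of_nonneg_left _ (by positivity)
    apply le_of_eq
    have h2 : ∑ i ∈ univ.filter (fun i : Fin n => j < i), 1 / f i =
        ∑ i ∈ (range n).filter (fun i => (j : ℕ) < i), 1 / f i := by
      rw [Finset.sum_filter, Finset.sum_filter]
      have := Fin.sum_univ_eq_sum_range (fun i : ℕ => if (j : ℕ) < i then 1 / f i else 0) n
      rw [← this]
      refine Finset.sum_congr rfl fun i _ => ?_
      rfl
    rw [h2]
    have h3 : (range n).filter (fun i => (j : ℕ) < i) = Finset.Ico ((j : ℕ) + 1) n := by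
      ext i
      rw [mem_filter, mem_range, Finset.mem_Ico]
      omega
    rw [h3, Finset.sum_Ico_eq_sum_range]
    have h4 : n - ((j : ℕ) + 1) = n - 1 - j := by omega
    rw [h4]
  have h2 : z₁ / (2 * a j : ℝ) ≤ |(t j : ℝ) * lam j| := by
    rw [abs_mul, abs_of_pos (hlam_pos j)]
    have h3 : (1 : ℝ) ≤ |(t j : ℝ)| := by
      have := Int.one_le_abs hjt
      exact_mod_cast this
    have h4 := hlam_ge j
    nlinarith [hlam_pos j]
  have h3 : z₁ / (2 * a j : ℝ) ≤ B * z₂ * ∑ i ∈ range (n - 1 - j), 1 / f (j + 1 + i) :=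
    h2.trans hbound
  set Tsum := ∑ i ∈ range (n - 1 - j), 1 / f (j + 1 + i) with hTsum
  have h4 : ((R : ℝ) - 1) * Tsum ≤ 1 / a j := by
    refine htail.trans ?_
    rw [hfi j]
    have := hfpos (j + (n - 1 - j))
    have h5 : 0 < 1 / f (j + (n - 1 - j)) := by positivity
    linarith
  have h5 : 2 * (B : ℝ) * z₂ < (R - 1) * z₁ := by
    have h6 : ((2 * B * z₂ : ℕ) : ℝ) < (((R - 1) * z₁ : ℕ) : ℝ) := by exact_mod_cast hR
    have h7 : ((R - 1 : ℕ) : ℝ) = (R : ℝ) - 1 := by
      rw [Nat.cast_sub (by omega)]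
      norm_num
    rw [Nat.cast_mul (R - 1) z₁, h7] at h6
    push_cast at h6
    linarith
  have hR0 : (0 : ℝ) < R - 1 := by linarith
  have h6 : ((R : ℝ) - 1) * (z₁ / (2 * a j)) ≤ B * z₂ * (1 / a j) := by
    calc ((R : ℝ) - 1) * (z₁ / (2 * a j)) ≤ (R - 1) * (B * z₂ * Tsum) :=
          mul_le_mul_of_nonneg_left h3 hR0.le
      _ = B * z₂ * ((R - 1) * Tsum) := by ring
      _ ≤ B * z₂ * (1 / a j) := mul_le_mul_of_nonneg_left h4 (by positivity)
  have h7 : ((R : ℝ) - 1) * (z₁ / (2 * a j)) = ((R - 1) * z₁) / (2 * a j) := by ring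
  have h8 : (B : ℝ) * z₂ * (1 / a j) = (2 * B * z₂) / (2 * a j) := by
    field_simp
  rw [h7, h8, div_le_div_iff_of_pos_right (by positivity)] at h6
  linarith

end Pool.Agent.GPF
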