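import Mathlib

/-!
# Definitions for MP_a076cd_nt
-/

set_option autoImplicit false

namespace Pool.Agent.GPF

/-- `p` is the greatest prime factor of `n`. -/
def IsGPF (p n : ℕ) : Prop :=
  p.Prime ∧ p ∣ n ∧ ∀ q : ℕ, q.Prime → q ∣ n → q ≤ p

/-- There are integers `a < b ≤ a + z` with `2 ^ n ≤ a < 2 ^ (n + 1)` such that all prime factors of
`a b` are at most `y`. -/
def CloseSmooth (y z n : ℕ) : Prop :=
  ∃ a b : ℕ, 2 ^ n ≤ a ∧ a < 2 ^ (n + 1) ∧ a < b ∧ b ≤ a + z ∧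
    ∀ q : ℕ, q.Prime → q ∣ a * b → q ≤ y

/-- `a` has a partner `b`: `a < b ≤ a + z`, `b < 2 ^ M`, and all prime factors of `a b` are in `S`. -/
def Partner (S : Finset ℕ) (z M a : ℕ) : Prop :=
  ∃ b : ℕ, a < b ∧ b ≤ a + z ∧ b < 2 ^ M ∧ ∀ q : ℕ, q.Prime → q ∣ a * b → q ∈ S

/-- For all integers `2 ≤ a < b` with the same greatest prime factor `p` and `2 ^ n ≤ a < 2 ^ (n + 1)`:
`b - a > f (log a)`, and `b - a > g (log a)` in the case `p ≤ f (log a)`. -/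
def Holds (f g : ℝ → ℝ) (n : ℕ) : Prop :=
  ∀ a b p : ℕ, 2 ≤ a → 2 ^ n ≤ a → a < 2 ^ (n + 1) → a < b → IsGPF p a → IsGPF p b →
    f (Real.log a) < (b : ℝ) - a ∧ ((p : ℝ) ≤ f (Real.log a) → g (Real.log a) < (b : ℝ) - a)

end Pool.Agent.GPF
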