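import Pool.Agent.Lib_MP_a076cd.Core
import Pool.Agent.Lib_MP_a076cd.Defs

/-!
# Counting the scales
-/

set_option autoImplicit false

namespace Pool.Agent.GPF

open Finset

theorem orderEmb_add {k : ℕ} (e : Fin k ↪o ℕ) (d : ℕ) :
    ∀ (a : ℕ) (h : a + d < k), e ⟨a, by omega⟩ + d ≤ e ⟨a + d, h⟩ := by
  induction d with
  | zero => intro a h; simp
  | succ d ih =>
    intro a h
    have h1 := ih a (by omega)
    have h2 : e ⟨a + d, by omega⟩ < e ⟨a + (d + 1), h⟩ := by
      apply e.strictMono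
      rw [Fin.mk_lt_mk]
      omega
    omega

theorem count_core (y z N g : ℕ) (hy : 2 ≤ y) (hz : 1 ≤ z) (S : Finset ℕ)
    (hSdef : S = (range (y + 1)).filter Nat.Prime)
    (hg1 : 1 ≤ g) (hg : 2 * (2 * S.card) ^ 2 * (N + 1) * z + 1 ≤ 2 ^ (g - 1)) (B : Finset ℕ)
    (hB : ∀ n ∈ B, n < N ∧ z ≤ 2 ^ n ∧ CloseSmooth y z n) : B.card < 2 * S.card * g := by
  by_contra hcon
  push Not at hcon
  set e := B.orderEmbOfFin rfl with he
  have hlt : ∀ i : Fin (2 * S.card), (i : ℕ) * g < B.card := by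
    intro i
    calc (i : ℕ) * g < (2 * S.card) * g := by
          exact Nat.mul_lt_mul_of_pos_right i.2 (by omega)
      _ ≤ B.card := hcon
  set f : Fin (2 * S.card) → ℕ := fun i => e ⟨i * g, hlt i⟩ with hf
  have hfB : ∀ i, f i ∈ B := fun i => Finset.orderEmbOfFin_mem B rfl _
  have hfsep : ∀ i j, i < j → f i + g ≤ f j := by
    intro i j hij
    have hij' : (i : ℕ) < j := hij
    obtain ⟨d, hd⟩ : ∃ d, (j : ℕ) * g = i * g + (g + d) := by
      have h1 : ((i : ℕ) + 1) * g ≤ j * g := Nat.mul_le_mul_right g hij'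
      rw [add_mul, one_mul] at h1
      exact ⟨(j : ℕ) * g - (i * g + g), by omega⟩
    have h2 : (i : ℕ) * g + (g + d) < B.card := by rw [← hd]; exact hlt j
    have h1 := orderEmb_add e (g + d) (i * g) h2
    have h3 : e ⟨(i : ℕ) * g + (g + d), h2⟩ = f j := by
      simp only [hf]
      congr 1
      rw [Fin.mk.injEq]
      exact hd.symm
    rw [h3] at h1
    have h4 : e ⟨(i : ℕ) * g, by omega⟩ = f i := rfl
    rw [h4] at h1
    omega
  choose a b h1 h2 h3 h4 h5 using fun i => (hB (f i) (hfB i)).2.2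
  have hS : 0 < S.card := by
    rw [Finset.card_pos]
    refine ⟨2, ?_⟩
    rw [hSdef, mem_filter, mem_range]
    exact ⟨by omega, Nat.prime_two⟩
  have hSp : ∀ q ∈ S, q.Prime := by
    intro q hq
    rw [hSdef, mem_filter] at hq
    exact hq.2
  have h5' : ∀ i, ∀ q, q.Prime → q ∣ a i * b i → q ∈ S := by
    intro i q hq hd
    have := h5 i q hq hd
    rw [hSdef, mem_filter, mem_range]
    exact ⟨by omega, hq⟩
  refine core z (N + 1) hz S hS hSp a b (fun i => (hB (f i) (hfB i)).2.1.trans (h1 i)) h3 h4 h5'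
    ?_ ?_
  · intro i
    have h6 := hB (f i) (hfB i)
    have h7 : 2 ^ (f i + 1) ≤ 2 ^ N := Nat.pow_le_pow_right (by norm_num) h6.1
    have h8 : 2 ^ f i ≤ 2 ^ (f i + 1) := Nat.pow_le_pow_right (by norm_num) (by omega)
    have h9 : 2 ^ (N + 1) = 2 * 2 ^ N := by rw [pow_succ]; ring
    have h10 := h4 i
    have h11 := h2 i
    have h12 := h6.2.1
    omega
  · intro i j hij
    have h6 := hfsep i j hij
    have h7 : 2 ^ (f i + g) ≤ 2 ^ f j := Nat.pow_le_pow_right (by norm_num) h6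
    have h8 : 2 ^ (f i + g) = 2 ^ (g - 1) * 2 ^ (f i + 1) := by
      rw [← pow_add]
      congr 1
      omega
    calc (2 * (2 * S.card) ^ 2 * (N + 1) * z + 1) * a i ≤ 2 ^ (g - 1) * 2 ^ (f i + 1) :=
          Nat.mul_le_mul hg (h2 i).le
      _ = 2 ^ (f i + g) := h8.symm
      _ ≤ 2 ^ f j := h7
      _ ≤ a j := h1 j

theorem card_primes_le (y : ℕ) (hy : 2 ≤ y) (S : Finset ℕ)
    (hSdef : S = (range (y + 1)).filter Nat.Prime) : (S.card : ℝ) ≤ 5 * y / Real.log y := by
  have h1 : S.card = Nat.primeCounting y := by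
    rw [hSdef, Nat.primeCounting, Nat.primeCounting', Nat.count_eq_card_filter_range]
  have hy1 : (1 : ℝ) < y := by exact_mod_cast (by omega : 1 < y)
  have h2 := Chebyshev.pi_le_log4_mul_div hy1
  rw [Nat.floor_natCast] at h2
  rw [h1]
  have hL : 0 < Real.log y := Real.log_pos hy1
  have hsq : Real.log √(y : ℝ) = Real.log y / 2 := Real.log_sqrt (by positivity)
  rw [hsq] at h2
  have h3 : √(y : ℝ) ≤ 2 * y / Real.log y := by
    rw [le_div_iff₀ hL]
    have h4 : Real.log √(y : ℝ) ≤ √(y : ℝ) - 1 := Real.log_le_sub_one_of_pos (by positivity)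
    rw [hsq] at h4
    have h5 : √(y : ℝ) * √(y : ℝ) = y := Real.mul_self_sqrt (by positivity)
    have h6 : 0 < √(y : ℝ) := by positivity
    nlinarith
  have h4 : Real.log 4 ≤ 3 / 2 := by
    have h5 : Real.log 4 = 2 * Real.log 2 := by
      rw [show (4 : ℝ) = 2 ^ 2 by norm_num, Real.log_pow]
      norm_num
    rw [h5]
    have := Real.log_two_lt_d9
    linarith
  have h5 : Real.log 4 * y / (Real.log y / 2) ≤ 3 * y / Real.log y := by
    rw [div_le_div_iff₀ (by positivity) hL]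
    have h6 : Real.log 4 * y ≤ 3 / 2 * y := mul_le_mul_of_nonneg_right h4 (by positivity)
    nlinarith [mul_le_mul_of_nonneg_right h6 hL.le]
  calc (Nat.primeCounting y : ℝ) ≤ Real.log 4 * y / (Real.log y / 2) + √(y : ℝ) := h2
    _ ≤ 3 * y / Real.log y + 2 * y / Real.log y := add_le_add h5 h3
    _ = 5 * y / Real.log y := by ring

/-- **The uniform bound.** -/
theorem uniform (N y z : ℕ) (hy : 2 ≤ y) (hyN : y ≤ N) (hz : 1 ≤ z) :
    (({n : ℕ | n < N ∧ CloseSmooth y z n}.ncard : ℕ) : ℝ) ≤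
      300 * y / Real.log y * (Real.log N + Real.log z) := by
  classical
  set S : Finset ℕ := (range (y + 1)).filter Nat.Prime with hSdef
  set k : ℕ := Nat.clog 2 N with hk
  set l : ℕ := Nat.clog 2 z with hl
  set g : ℕ := 9 * k + l + 1 with hgdef
  have hN2 : 2 ≤ N := hy.trans hyN
  have hkN : N ≤ 2 ^ k := Nat.le_pow_clog (by norm_num) N
  have hlz : z ≤ 2 ^ l := Nat.le_pow_clog (by norm_num) z
  have hSle : S.card ≤ y := by
    have h1 : S ⊆ Finset.Icc 1 y := by
      intro q hq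
      rw [hSdef, mem_filter, mem_range] at hq
      rw [Finset.mem_Icc]
      exact ⟨hq.2.one_le, by omega⟩
    refine (Finset.card_le_card h1).trans ?_
    rw [Nat.card_Icc]
    omega
  have hgR : 2 * (2 * S.card) ^ 2 * (N + 1) * z + 1 ≤ 2 ^ (g - 1) := by
    have h1 : g - 1 = k * 9 + l := by omega
    rw [h1, pow_add, pow_mul]
    have h2 : N ^ 9 ≤ (2 ^ k) ^ 9 := Nat.pow_le_pow_left hkN 9
    refine le_trans ?_ (Nat.mul_le_mul h2 hlz)
    have hs : S.card ≤ N := hSle.trans hyN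
    have h3 : 2 * (2 * S.card) ^ 2 * (N + 1) ≤ 2 * (2 * N) ^ 2 * (2 * N) := by
      apply Nat.mul_le_mul _ (by omega)
      apply Nat.mul_le_mul_left
      exact Nat.pow_le_pow_left (by omega) 2
    have h4 : 2 * (2 * N) ^ 2 * (2 * N) = 16 * N ^ 3 := by ring
    have h5 : 1 ≤ N ^ 3 := Nat.one_le_pow _ _ (by omega)
    have h6 : 64 ≤ N ^ 6 := by
      calc 64 = 2 ^ 6 := by norm_num
        _ ≤ N ^ 6 := Nat.pow_le_pow_left hN2 6
    have h7 : N ^ 9 = N ^ 3 * N ^ 6 := by rw [← pow_add]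
    have h8 : 2 * (2 * S.card) ^ 2 * (N + 1) + 1 ≤ N ^ 9 := by
      rw [h7]
      nlinarith
    calc 2 * (2 * S.card) ^ 2 * (N + 1) * z + 1
        ≤ 2 * (2 * S.card) ^ 2 * (N + 1) * z + z := by omega
      _ = (2 * (2 * S.card) ^ 2 * (N + 1) + 1) * z := by ring
      _ ≤ N ^ 9 * z := Nat.mul_le_mul_right z h8
  set B : Finset ℕ := (range N).filter (fun n => z ≤ 2 ^ n ∧ CloseSmooth y z n) with hBdef
  have hB := count_core y z N g hy hz S hSdef (by omega) hgR B (fun n hn => by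
    rw [hBdef, mem_filter, mem_range] at hn
    exact ⟨hn.1, hn.2.1, hn.2.2⟩)
  have hset : {n : ℕ | n < N ∧ CloseSmooth y z n} ⊆ ↑(B ∪ range l) := by
    intro n hn
    rw [Finset.coe_union, Set.mem_union]
    by_cases h : z ≤ 2 ^ n
    · left
      rw [Finset.mem_coe, hBdef, mem_filter, mem_range]
      exact ⟨hn.1, h, hn.2⟩
    · right
      rw [Finset.mem_coe, mem_range, hl]
      push Not at h
      exact (Nat.lt_clog_iff_pow_lt (by norm_num)).2 h
  have hcard : {n : ℕ | n < N ∧ CloseSmooth y z n}.ncard ≤ 2 * S.card * g + l := by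
    calc {n : ℕ | n < N ∧ CloseSmooth y z n}.ncard ≤ (↑(B ∪ range l) : Set ℕ).ncard :=
          Set.ncard_le_ncard hset (Finset.finite_toSet _)
      _ = (B ∪ range l).card := Set.ncard_coe_finset _
      _ ≤ B.card + (range l).card := Finset.card_union_le _ _
      _ ≤ 2 * S.card * g + l := by rw [card_range]; omega
  have hcard' : (({n : ℕ | n < N ∧ CloseSmooth y z n}.ncard : ℕ) : ℝ) ≤
      2 * S.card * (9 * k + l + 1) + l := by
    have : (({n : ℕ | n < N ∧ CloseSmooth y z n}.ncard : ℕ) : ℝ) ≤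
        ((2 * S.card * g + l : ℕ) : ℝ) := by exact_mod_cast hcard
    rw [hgdef] at this
    push_cast at this
    exact this
  -- the real estimates
  have hy1 : (1 : ℝ) < y := by exact_mod_cast (by omega : 1 < y)
  have hN1 : (2 : ℝ) ≤ N := by exact_mod_cast hN2
  have hz1 : (1 : ℝ) ≤ z := by exact_mod_cast hz
  have hL : 0 < Real.log y := Real.log_pos hy1
  have hLN : Real.log 2 ≤ Real.log N := Real.log_le_log (by norm_num) hN1
  have hLz : 0 ≤ Real.log z := Real.log_nonneg hz1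
  have hl2 : (0.6931 : ℝ) < Real.log 2 := by have := Real.log_two_gt_d9; linarith
  have hclog : ∀ m : ℕ, 1 ≤ m → ((Nat.clog 2 m : ℕ) : ℝ) ≤ 1.45 * Real.log m + 1 := by
    intro m hm
    have h1 : Nat.clog 2 m ≤ Nat.log 2 m + 1 :=
      Nat.clog_le_of_le_pow (Nat.lt_pow_succ_log_self (by norm_num) m).le
    have h2 : (Nat.log 2 m : ℝ) * Real.log 2 ≤ Real.log m := by
      rw [← Real.log_pow]
      apply Real.log_le_log (by positivity)
      exact_mod_cast Nat.pow_log_le_self 2 (by omega)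
    have h3 : ((Nat.clog 2 m : ℕ) : ℝ) ≤ Nat.log 2 m + 1 := by exact_mod_cast h1
    have h4 : (0 : ℝ) ≤ Nat.log 2 m := by positivity
    nlinarith
  have hkr : (k : ℝ) ≤ 1.45 * Real.log N + 1 := hclog N (by omega)
  have hlr : (l : ℝ) ≤ 1.45 * Real.log z + 1 := hclog z hz
  have hLy : Real.log y ≤ y := by
    have := Real.log_le_sub_one_of_pos (show (0 : ℝ) < y by linarith)
    linarith
  have hX : 1 ≤ y / Real.log y := by rwa [le_div_iff₀ hL, one_mul]
  have hs := card_primes_le y hy S hSdef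
  have hLN0 : 0 < Real.log N := by linarith
  have h29 : (9 * k + l + 1 : ℝ) ≤ 29.1 * (Real.log N + Real.log z) := by
    nlinarith
  have hl3 : (l : ℝ) ≤ 2 * (Real.log N + Real.log z) := by nlinarith
  have hX5 : (5 : ℝ) * y / Real.log y = 5 * (y / Real.log y) := by ring
  rw [hX5] at hs
  set X : ℝ := y / Real.log y with hXdef
  set L : ℝ := Real.log N + Real.log z with hLdef
  have hLpos : 0 < L := by linarith
  have hg0 : (0 : ℝ) ≤ 9 * k + l + 1 := by positivity
  calc (({n : ℕ | n < N ∧ CloseSmooth y z n}.ncard : ℕ) : ℝ)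
      ≤ 2 * S.card * (9 * k + l + 1) + l := hcard'
    _ ≤ 2 * (5 * X) * (29.1 * L) + 2 * L * X := by
        apply add_le_add
        · apply mul_le_mul _ h29 hg0 (by positivity)
          linarith
        · nlinarith
    _ ≤ 300 * X * L := by nlinarith [mul_pos (by linarith : 0 < X) hLpos]
    _ = 300 * y / Real.log y * L := by rw [hXdef]; ring

end Pool.Agent.GPF
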