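import Pool.Agent.Lib_MP_a076cd.Core2
import Pool.Agent.Lib_MP_a076cd.Count

/-!
# Counting the scales, sharper form
-/

set_option autoImplicit false

namespace Pool.Agent.GPF

open Finset

/-- As `CloseSmooth`, with a lower bound for the difference. -/
def CloseSmooth₂ (y z₁ z₂ n : ℕ) : Prop :=
  ∃ a b : ℕ, 2 ^ n ≤ a ∧ a < 2 ^ (n + 1) ∧ a + z₁ ≤ b ∧ b ≤ a + z₂ ∧
    ∀ q : ℕ, q.Prime → q ∣ a * b → q ≤ y

theorem count_core2 (y z₁ z₂ N m B R g : ℕ) (hy : 2 ≤ y) (hz : 1 ≤ z₁) (S : Finset ℕ)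
    (hSdef : S = (range (y + 1)).filter Nat.Prime)
    (hB : B * (2 * (N + 1) * m) + 1 < (B + 1) ^ m) (hR2 : 2 ≤ R)
    (hR : 2 * B * z₂ < (R - 1) * z₁)
    (hg1 : 1 ≤ g) (hg : R ≤ 2 ^ (g - 1)) (T : Finset ℕ)
    (hT : ∀ n ∈ T, n < N ∧ z₂ ≤ 2 ^ n ∧ CloseSmooth₂ y z₁ z₂ n) : T.card < m * S.card * g := by
  by_contra hcon
  push Not at hcon
  have hS : 0 < S.card := by
    rw [Finset.card_pos]
    refine ⟨2, ?_⟩
    rw [hSdef, mem_filter, mem_range]
    exact ⟨by omega, Nat.prime_two⟩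
  have hSp : ∀ q ∈ S, q.Prime := by
    intro q hq
    rw [hSdef, mem_filter] at hq
    exact hq.2
  set e := T.orderEmbOfFin rfl with he
  have hlt : ∀ i : Fin (m * S.card), (i : ℕ) * g < T.card := by
    intro i
    calc (i : ℕ) * g < (m * S.card) * g := Nat.mul_lt_mul_of_pos_right i.2 (by omega)
      _ ≤ T.card := hcon
  set f : Fin (m * S.card) → ℕ := fun i => e ⟨i * g, hlt i⟩ with hf
  have hfB : ∀ i, f i ∈ T := fun i => Finset.orderEmbOfFin_mem T rfl _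
  have hfsep : ∀ i j, i < j → f i + g ≤ f j := by
    intro i j hij
    have hij' : (i : ℕ) < j := hij
    obtain ⟨d, hd⟩ : ∃ d, (j : ℕ) * g = i * g + (g + d) := by
      have h1 : ((i : ℕ) + 1) * g ≤ j * g := Nat.mul_le_mul_right g hij'
      rw [add_mul, one_mul] at h1
      exact ⟨(j : ℕ) * g - (i * g + g), by omega⟩
    have h2 : (i : ℕ) * g + (g + d) < T.card := by rw [← hd]; exact hlt j
    have h1 := orderEmb_add e (g + d) (i * g) h2
    have h3 : e ⟨(i : ℕ) * g + (g + d), h2⟩ = f j := by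
      simp only [hf]
      congr 1
      rw [Fin.mk.injEq]
      exact hd.symm
    rw [h3] at h1
    have h4 : e ⟨(i : ℕ) * g, by omega⟩ = f i := rfl
    rw [h4] at h1
    omega
  choose a b h1 h2 h3 h4 h5 using fun i => (hT (f i) (hfB i)).2.2
  have h5' : ∀ i, ∀ q, q.Prime → q ∣ a i * b i → q ∈ S := by
    intro i q hq hd
    have := h5 i q hq hd
    rw [hSdef, mem_filter, mem_range]
    exact ⟨by omega, hq⟩
  refine core2 S hSp (m * S.card) B (2 * (N + 1) * m) (N + 1) z₁ z₂ R a b hz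
    (fun i => (hT (f i) (hfB i)).2.1.trans (h1 i)) h3 h4 h5' ?_ ?_ ?_ hR2 hR ?_
  · intro i
    have h6 := hT (f i) (hfB i)
    have h7 : 2 ^ (f i + 1) ≤ 2 ^ N := Nat.pow_le_pow_right (by norm_num) h6.1
    have h8 : 2 ^ f i ≤ 2 ^ (f i + 1) := Nat.pow_le_pow_right (by norm_num) (by omega)
    have h9 : 2 ^ (N + 1) = 2 * 2 ^ N := by rw [pow_succ]; ring
    have h10 := h4 i
    have h11 := h2 i
    have h12 := h6.2.1
    omega
  · apply le_of_eq
    ring
  · rw [pow_mul]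
    exact Nat.pow_lt_pow_left hB hS.ne'
  · intro i j hij
    have h6 := hfsep i j hij
    have h7 : 2 ^ (f i + g) ≤ 2 ^ f j := Nat.pow_le_pow_right (by norm_num) h6
    have h8 : 2 ^ (f i + g) = 2 ^ (g - 1) * 2 ^ (f i + 1) := by
      rw [← pow_add]
      congr 1
      omega
    calc R * a i ≤ 2 ^ (g - 1) * 2 ^ (f i + 1) := Nat.mul_le_mul hg (h2 i).le
      _ = 2 ^ (f i + g) := h8.symm
      _ ≤ 2 ^ f j := h7
      _ ≤ a j := h1 j

end Pool.Agent.GPF
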