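import Pool.Agent.Lib_MP_a076cd.Sharp

/-!
# The linear bound with an explicit constant, conclusion
-/

set_option autoImplicit false

namespace Pool.Agent.GPF

open Finset Filter

theorem log_le_scale' {n N a : ℕ} (hn : n < N) (ha2 : 2 ≤ a) (ha : a < 2 ^ (n + 1)) :
    Real.log a ≤ Real.log 2 * N := by
  have h1 : (1 : ℝ) ≤ a := by exact_mod_cast (by omega : 1 ≤ a)
  have h2 : a ≤ 2 ^ N := ha.le.trans (Nat.pow_le_pow_right (by norm_num) hn)
  have h3 : (a : ℝ) ≤ 2 ^ N := by exact_mod_cast h2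
  calc Real.log a ≤ Real.log ((2 : ℝ) ^ N) := Real.log_le_log (by linarith) h3
    _ = Real.log 2 * N := by rw [Real.log_pow]; ring

theorem split (δ η : ℝ) (hδ : 0 < δ) (hδ1 : δ ≤ 1) (hη : 0 < η) (N n : ℕ) (hn : n < N)
    (h : ¬ Holds (fun x => δ * x) (fun x => δ * x) n) :
    CloseSmooth ⌊η * N⌋₊ N n ∨
      CloseSmooth₂ ⌊δ * Real.log 2 * N⌋₊ (⌊η * N⌋₊ + 1) ⌊δ * Real.log 2 * N⌋₊ n := by
  unfold Holds at h
  push Not at h
  obtain ⟨a, b, p, ha2, ha, ha', hab, hpa, hpb, hc⟩ := h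
  have hle : (b : ℝ) - a ≤ δ * Real.log a := by
    by_contra hcon
    push Not at hcon
    obtain ⟨_, h2⟩ := hc hcon
    linarith
  have hpab : p ≤ b - a := by
    apply Nat.le_of_dvd (by omega)
    exact Nat.dvd_sub hpb.2.1 hpa.2.1
  have hlog := log_le_scale' hn ha2 ha'
  have hbay : (b : ℝ) - a ≤ δ * Real.log 2 * N := by
    calc (b : ℝ) - a ≤ δ * Real.log a := hle
      _ ≤ δ * (Real.log 2 * N) := mul_le_mul_of_nonneg_left hlog hδ.le
      _ = δ * Real.log 2 * N := by ring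
  have hba : b - a ≤ ⌊δ * Real.log 2 * N⌋₊ := by
    apply Nat.le_floor
    rw [Nat.cast_sub hab.le]
    exact hbay
  have hyN : ⌊δ * Real.log 2 * N⌋₊ ≤ N := by
    have hl2 : 0 < Real.log 2 := Real.log_pos (by norm_num)
    have hl2' : Real.log 2 < 1 := by have := Real.log_two_lt_d9; linarith
    have h1 : (⌊δ * Real.log 2 * N⌋₊ : ℝ) ≤ δ * Real.log 2 * N := Nat.floor_le (by positivity)
    have h2 : δ * Real.log 2 ≤ 1 := by nlinarith
    have h3 : δ * Real.log 2 * N ≤ 1 * N := mul_le_mul_of_nonneg_right h2 (by positivity)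
    have h4 : (⌊δ * Real.log 2 * N⌋₊ : ℝ) ≤ N := by linarith
    exact_mod_cast h4
  have hprime : ∀ q : ℕ, q.Prime → q ∣ a * b → q ≤ p := by
    intro q hq hd
    rcases (Nat.Prime.dvd_mul hq).1 hd with h | h
    · exact hpa.2.2 q hq h
    · exact hpb.2.2 q hq h
  rcases Nat.lt_or_ge ⌊η * N⌋₊ p with hp | hp
  · right
    refine ⟨a, b, ha, ha', by omega, by omega, fun q hq hd => ?_⟩
    have := hprime q hq hd
    omega
  · left
    refine ⟨a, b, ha, ha', hab, by omega, fun q hq hd => ?_⟩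
    have := hprime q hq hd
    omega

theorem sharp (δ ε : ℝ) (hδ : 0 < δ) (hε : 0 < ε) : ∃ N₀ : ℕ, ∀ N : ℕ, N₀ ≤ N →
    (({n : ℕ | n < N ∧ ¬ Holds (fun x => δ * x) (fun x => δ * x) n}.ncard : ℕ) : ℝ) ≤
      (Real.log 4 * δ + ε) * N := by
  classical
  have hl2 : 0 < Real.log 2 := Real.log_pos (by norm_num)
  rcases lt_or_ge 1 δ with hδ1 | hδ1
  · refine ⟨0, fun N _ => (trivial_count N _).trans ?_⟩
    have h5 : Real.log 4 = 2 * Real.log 2 := by
      rw [show (4 : ℝ) = 2 ^ 2 by norm_num, Real.log_pow]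
      norm_num
    have h6 := Real.log_two_gt_d9
    have h7 : 1 ≤ Real.log 4 * δ + ε := by
      rw [h5]
      nlinarith
    have h8 : (0 : ℝ) ≤ N := by positivity
    nlinarith
  set η : ℝ := min 1 (ε / 4800) with hη
  have hη0 : 0 < η := lt_min one_pos (by positivity)
  have hη1 : η ≤ 1 := min_le_left _ _
  have hηε : η ≤ ε / 4800 := min_le_right _ _
  have e1 := third δ (ε / 2) η hδ hδ1 (by positivity) hη0
  have e2 : ∀ᶠ N : ℕ in atTop, 4 / η ^ 2 < (N : ℝ) :=
    (tendsto_natCast_atTop_atTop (R := ℝ)).eventually (eventually_gt_atTop _)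
  have e3 : ∀ᶠ N : ℕ in atTop, ‖Real.log (N : ℝ)‖ ≤ ε / 16 * ‖(N : ℝ)‖ :=
    (tendsto_natCast_atTop_atTop (R := ℝ)).eventually
      (Real.isLittleO_log_id_atTop.def (by positivity : 0 < ε / 16))
  have e4 : ∀ᶠ N : ℕ in atTop, 8 / ε < (N : ℝ) :=
    (tendsto_natCast_atTop_atTop (R := ℝ)).eventually (eventually_gt_atTop _)
  obtain ⟨N₀, hN₀⟩ := eventually_atTop.1
    (e1.and (e2.and (e3.and (e4.and (eventually_ge_atTop 2)))))
  refine ⟨N₀, fun N hN => ?_⟩
  obtain ⟨h1, h2, h3, h4, hN2⟩ := hN₀ N hN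
  have hN2' : (2 : ℝ) ≤ N := by exact_mod_cast hN2
  have hN1 : (1 : ℝ) ≤ N := by linarith
  have hN0 : (0 : ℝ) < N := by linarith
  have hLN : 0 < Real.log N := Real.log_pos (by linarith)
  set y : ℕ := ⌊δ * Real.log 2 * N⌋₊ with hy
  set z₁ : ℕ := ⌊η * N⌋₊ + 1 with hz₁
  set v : ℕ := ⌊η * N⌋₊ with hv
  set T : Finset ℕ := (range N).filter (fun n => y ≤ 2 ^ n ∧ CloseSmooth₂ y z₁ y n) with hT
  have hTcard := h1 T (fun n hn => by
    rw [hT, mem_filter, mem_range] at hn
    exact ⟨hn.1, hn.2.1, hn.2.2⟩)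
  -- the second class
  have hNη : 4 < η ^ 2 * N := by
    rwa [div_lt_iff₀ (by positivity), mul_comm] at h2
  have hNη1 : 4 < η * N := by
    have h5 : η ^ 2 * N ≤ η * N := by
      apply mul_le_mul_of_nonneg_right _ hN0.le
      nlinarith
    linarith
  have hv2 : 2 ≤ v := Nat.le_floor (by push_cast; linarith)
  have hvη : (v : ℝ) ≤ η * N := Nat.floor_le (by positivity)
  have hvN : v ≤ N := by
    have h5 : η * N ≤ N := by nlinarith
    exact_mod_cast hvη.trans h5
  have hu := uniform N v N hv2 hvN (by omega)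
  have hLv : 1 / 2 * Real.log N ≤ Real.log v := by
    have h5 : √(N : ℝ) ≤ v := by
      have h6 : η * N < v + 1 := Nat.lt_floor_add_one _
      have h7 : √(N : ℝ) * √(N : ℝ) = N := Real.mul_self_sqrt hN0.le
      have h8 : 0 < √(N : ℝ) := Real.sqrt_pos.2 hN0
      have h9 : 2 < η * √(N : ℝ) := by
        have h10 : (η * √(N : ℝ)) ^ 2 = η ^ 2 * N := by
          rw [mul_pow, Real.sq_sqrt hN0.le]
        have h11 : 0 < η * √(N : ℝ) := by positivity
        nlinarith
      have h10 : η * N = η * √(N : ℝ) * √(N : ℝ) := by rw [mul_assoc, h7]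
      have h11 : 1 ≤ √(N : ℝ) := by
        rw [show (1 : ℝ) = √1 by simp]
        exact Real.sqrt_le_sqrt hN1
      nlinarith
    calc 1 / 2 * Real.log N = Real.log √(N : ℝ) := by
          rw [Real.log_sqrt hN0.le]
          ring
      _ ≤ Real.log v := Real.log_le_log (Real.sqrt_pos.2 hN0) h5
  have hLv0 : 0 < Real.log v := lt_of_lt_of_le (by positivity) hLv
  have hsecond : (({n : ℕ | n < N ∧ CloseSmooth v N n}.ncard : ℕ) : ℝ) ≤ ε / 4 * N := by
    refine hu.trans ?_
    have h5 : 300 * (v : ℝ) / Real.log v ≤ 300 * (η * N) / (1 / 2 * Real.log N) :=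
      div_le_div₀ (by positivity) (by linarith) (by positivity) hLv
    calc 300 * (v : ℝ) / Real.log v * (Real.log N + Real.log N)
        ≤ 300 * (η * N) / (1 / 2 * Real.log N) * (Real.log N + Real.log N) :=
          mul_le_mul_of_nonneg_right h5 (by linarith)
      _ = 1200 * η * N := by
          field_simp
          ring
      _ ≤ 1200 * (ε / 4800) * N := by
          apply mul_le_mul_of_nonneg_right _ hN0.le
          linarith
      _ = ε / 4 * N := by ring
  -- the small scales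
  set k : ℕ := Nat.clog 2 N with hk
  have hkle : (k : ℝ) ≤ ε / 4 * N := by
    have h5 := clog_le N (by omega)
    rw [Real.norm_of_nonneg hLN.le, Real.norm_of_nonneg hN0.le] at h3
    have h6 : Real.log N / Real.log 2 ≤ 2 * Real.log N := by
      rw [div_le_iff₀ hl2]
      have := Real.log_two_gt_d9
      nlinarith
    have h7 : 1 ≤ ε / 8 * N := by
      rw [div_lt_iff₀ hε] at h4
      linarith
    rw [← hk] at h5
    linarith
  have hset : {n : ℕ | n < N ∧ ¬ Holds (fun x => δ * x) (fun x => δ * x) n} ⊆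
      (↑(T ∪ range k) : Set ℕ) ∪ {n : ℕ | n < N ∧ CloseSmooth v N n} := by
    intro n hn
    rcases split δ η hδ hδ1 hη0 N n hn.1 hn.2 with h | h
    · right
      exact ⟨hn.1, h⟩
    · left
      rw [Finset.coe_union, Set.mem_union]
      by_cases h5 : y ≤ 2 ^ n
      · left
        rw [Finset.mem_coe, hT, mem_filter, mem_range]
        exact ⟨hn.1, h5, h⟩
      · right
        rw [Finset.mem_coe, mem_range, hk]
        push Not at h5
        have hyN : y ≤ N := by
          have hl2' : Real.log 2 < 1 := by have := Real.log_two_lt_d9; linarith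
          have h6 : (y : ℝ) ≤ δ * Real.log 2 * N := Nat.floor_le (by positivity)
          have h7 : δ * Real.log 2 ≤ 1 := by nlinarith
          have h8 : δ * Real.log 2 * N ≤ 1 * N := mul_le_mul_of_nonneg_right h7 (by positivity)
          have h9 : (y : ℝ) ≤ N := by linarith
          exact_mod_cast h9
        exact (Nat.lt_clog_iff_pow_lt (by norm_num)).2 (by omega)
  have hfin : {n : ℕ | n < N ∧ CloseSmooth v N n}.Finite :=
    (Set.finite_lt_nat N).subset fun n hn => hn.1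
  have hcard : {n : ℕ | n < N ∧ ¬ Holds (fun x => δ * x) (fun x => δ * x) n}.ncard ≤
      (T.card + k) + {n : ℕ | n < N ∧ CloseSmooth v N n}.ncard := by
    calc {n : ℕ | n < N ∧ ¬ Holds (fun x => δ * x) (fun x => δ * x) n}.ncard
        ≤ ((↑(T ∪ range k) : Set ℕ) ∪ {n : ℕ | n < N ∧ CloseSmooth v N n}).ncard :=
          Set.ncard_le_ncard hset ((Finset.finite_toSet _).union hfin)
      _ ≤ (↑(T ∪ range k) : Set ℕ).ncard + {n : ℕ | n < N ∧ CloseSmooth v N n}.ncard :=
          Set.ncard_union_le _ _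
      _ ≤ (T.card + k) + {n : ℕ | n < N ∧ CloseSmooth v N n}.ncard := by
          apply Nat.add_le_add_right
          rw [Set.ncard_coe_finset]
          calc (T ∪ range k).card ≤ T.card + (range k).card := Finset.card_union_le _ _
            _ = T.card + k := by rw [card_range]
  have hcard' : (({n : ℕ | n < N ∧ ¬ Holds (fun x => δ * x) (fun x => δ * x) n}.ncard : ℕ) : ℝ) ≤
      (T.card + k) + (({n : ℕ | n < N ∧ CloseSmooth v N n}.ncard : ℕ) : ℝ) := by
    exact_mod_cast hcard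
  calc (({n : ℕ | n < N ∧ ¬ Holds (fun x => δ * x) (fun x => δ * x) n}.ncard : ℕ) : ℝ)
      ≤ (T.card + k) + (({n : ℕ | n < N ∧ CloseSmooth v N n}.ncard : ℕ) : ℝ) := hcard'
    _ ≤ ((Real.log 4 * δ + ε / 2) * N + ε / 4 * N) + ε / 4 * N := by linarith
    _ = (Real.log 4 * δ + ε) * N := by ring

end Pool.Agent.GPF
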