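import Pool.Agent.Lib_MP_a076cd.Cor

/-!
# The linear bound
-/

set_option autoImplicit false

namespace Pool.Agent.GPF

open Finset

theorem linear (A : ℝ) (hA : 0 < A) :
    ∃ K : ℝ, ∀ δ : ℝ, 0 < δ → δ ≤ 1 → ∃ N₀ : ℕ, ∀ N : ℕ, N₀ ≤ N →
      (({n : ℕ | n < N ∧ ¬ Holds (fun x => δ * x) (fun x => x ^ A) n}.ncard : ℕ) : ℝ) ≤
        K * δ * N := by
  refine ⟨600 * (2 + A), fun δ hδ hδ1 => ?_⟩
  obtain ⟨N₀, hN₀⟩ := exists_nat_gt (4 / δ ^ 2)
  refine ⟨max 2 N₀, fun N hN => ?_⟩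
  have hN2 : 2 ≤ N := (le_max_left _ _).trans hN
  have hN2' : (2 : ℝ) ≤ N := by exact_mod_cast hN2
  have hN1 : (1 : ℝ) ≤ N := by linarith
  have hN0 : (0 : ℝ) < N := by linarith
  have hNδ : 4 < δ ^ 2 * N := by
    have h1 : (N₀ : ℝ) ≤ N := by exact_mod_cast (le_max_right _ _).trans hN
    have h2 : 4 / δ ^ 2 < N := hN₀.trans_le h1
    rwa [div_lt_iff₀ (by positivity), mul_comm] at h2
  have hNδ1 : 4 < δ * N := by
    have h1 : δ ^ 2 * N ≤ δ * N := by
      apply mul_le_mul_of_nonneg_right _ hN0.le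
      nlinarith
    linarith
  set y : ℕ := ⌊δ * N⌋₊ with hy
  set z : ℕ := ⌊(N : ℝ) ^ (1 + A)⌋₊ with hz
  have hy2 : 2 ≤ y := Nat.le_floor (by push_cast; linarith)
  have hyδ : (y : ℝ) ≤ δ * N := Nat.floor_le (by positivity)
  have hyN : y ≤ N := by
    have h1 : δ * N ≤ N := by nlinarith
    exact_mod_cast hyδ.trans h1
  have hNA : 1 ≤ (N : ℝ) ^ (1 + A) := Real.one_le_rpow hN1 (by linarith)
  have hz1 : 1 ≤ z := Nat.le_floor (by push_cast; linarith)
  have hzA : (z : ℝ) ≤ (N : ℝ) ^ (1 + A) := Nat.floor_le (by positivity)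
  have hcount := count_le N y z (fun x => δ * x) (fun x => x ^ A) hy2 hyN hz1 (by
    intro n hn h
    refine not_holds _ _ n y z ?_ ?_ ?_ h
    · intro a ha2 ha
      obtain ⟨h1, h2⟩ := log_le_scale hn ha2 ha
      exact (mul_le_mul_of_nonneg_left h2 hδ.le).trans_lt (Nat.lt_floor_add_one _)
    · intro a ha2 ha
      obtain ⟨h1, h2⟩ := log_le_scale hn ha2 ha
      refine ((mul_le_mul_of_nonneg_left h2 hδ.le).trans ?_).trans_lt (Nat.lt_floor_add_one _)
      have h3 : (N : ℝ) ^ (1 : ℝ) ≤ (N : ℝ) ^ (1 + A) :=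
        Real.rpow_le_rpow_of_exponent_le hN1 (by linarith)
      rw [Real.rpow_one] at h3
      nlinarith
    · intro a ha2 ha
      obtain ⟨h1, h2⟩ := log_le_scale hn ha2 ha
      refine ((Real.rpow_le_rpow h1 h2 hA.le).trans ?_).trans_lt (Nat.lt_floor_add_one _)
      exact Real.rpow_le_rpow_of_exponent_le hN1 (by linarith))
  refine hcount.trans ?_
  have hLN : 0 < Real.log N := Real.log_pos (by linarith)
  have hLy : 1 / 2 * Real.log N ≤ Real.log y := by
    have h1 : √(N : ℝ) ≤ y := by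
      have h2 : δ * N < y + 1 := Nat.lt_floor_add_one _
      have h3 : √(N : ℝ) * √(N : ℝ) = N := Real.mul_self_sqrt hN0.le
      have h4 : 0 < √(N : ℝ) := Real.sqrt_pos.2 hN0
      have h5 : 2 < δ * √(N : ℝ) := by
        have h6 : (δ * √(N : ℝ)) ^ 2 = δ ^ 2 * N := by
          rw [mul_pow, Real.sq_sqrt hN0.le]
        have h7 : 0 < δ * √(N : ℝ) := by positivity
        nlinarith
      have h6 : δ * N = δ * √(N : ℝ) * √(N : ℝ) := by rw [mul_assoc, h3]
      have h7 : 1 ≤ √(N : ℝ) := by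
        rw [show (1 : ℝ) = √1 by simp]
        exact Real.sqrt_le_sqrt hN1
      nlinarith
    calc 1 / 2 * Real.log N = Real.log √(N : ℝ) := by
          rw [Real.log_sqrt hN0.le]
          ring
      _ ≤ Real.log y := Real.log_le_log (Real.sqrt_pos.2 hN0) h1
  have hLz : Real.log z ≤ (1 + A) * Real.log N := by
    rw [← Real.log_rpow hN0]
    exact Real.log_le_log (by exact_mod_cast hz1) hzA
  have hLy0 : 0 < Real.log y := lt_of_lt_of_le (by positivity) hLy
  have h1 : 300 * (y : ℝ) / Real.log y ≤ 300 * (δ * N) / (1 / 2 * Real.log N) :=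
    div_le_div₀ (by positivity) (by linarith) (by positivity) hLy
  have h2 : Real.log N + Real.log z ≤ (2 + A) * Real.log N := by linarith
  have h2' : 0 ≤ Real.log N + Real.log z := by
    have := Real.log_nonneg (show (1 : ℝ) ≤ z by exact_mod_cast hz1)
    linarith
  calc 300 * (y : ℝ) / Real.log y * (Real.log N + Real.log z)
      ≤ 300 * (δ * N) / (1 / 2 * Real.log N) * ((2 + A) * Real.log N) :=
        mul_le_mul h1 h2 h2' (by positivity)
    _ = 600 * (2 + A) * δ * N := by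
        field_simp
        ring

end Pool.Agent.GPF
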