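import Pool.Agent.Lib_MP_a076cd.Count2
import Pool.Agent.Lib_MP_a076cd.Cor

/-!
# The linear bound with an explicit constant
-/

set_option autoImplicit false

namespace Pool.Agent.GPF

open Finset Filter

theorem clog_le (m : ℕ) (hm : 1 ≤ m) : ((Nat.clog 2 m : ℕ) : ℝ) ≤ Real.log m / Real.log 2 + 1 := by
  have hl2 : 0 < Real.log 2 := Real.log_pos (by norm_num)
  have h1 : Nat.clog 2 m ≤ Nat.log 2 m + 1 :=
    Nat.clog_le_of_le_pow (Nat.lt_pow_succ_log_self (by norm_num) m).le
  have h2 : (Nat.log 2 m : ℝ) * Real.log 2 ≤ Real.log m := by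
    rw [← Real.log_pow]
    apply Real.log_le_log (by positivity)
    exact_mod_cast Nat.pow_log_le_self 2 (by omega)
  have h3 : ((Nat.clog 2 m : ℕ) : ℝ) ≤ Nat.log 2 m + 1 := by exact_mod_cast h1
  have h4 : (Nat.log 2 m : ℝ) ≤ Real.log m / Real.log 2 := by
    rw [le_div_iff₀ hl2]
    exact h2
  linarith

/-- The choice of the parameters. -/
theorem exists_params (η α : ℝ) (m : ℕ) (hη : 0 < η) (hm : 2 ≤ m) (hα : α = 1 / ((m : ℝ) - 1))
    (N y : ℕ) (hN : 1 ≤ N) (hyN : y ≤ N) :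
    ∃ B R g : ℕ, B * (2 * (N + 1) * m) + 1 < (B + 1) ^ m ∧ 2 ≤ R ∧
      2 * B * y < (R - 1) * (⌊η * N⌋₊ + 1) ∧ 1 ≤ g ∧ R ≤ 2 ^ (g - 1) ∧
      (g : ℝ) ≤ α * (Real.log N / Real.log 2) +
        (2 + (Real.log (2 / η + 2) + Real.log 2 + α * Real.log (4 * m)) / Real.log 2) := by
  have hl2 : 0 < Real.log 2 := Real.log_pos (by norm_num)
  have hmr : (2 : ℝ) ≤ m := by exact_mod_cast hm
  have hα0 : 0 < α := by
    rw [hα]
    apply one_div_pos.2
    linarith
  have hNr : (1 : ℝ) ≤ N := by exact_mod_cast hN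
  set D : ℕ := 2 * (N + 1) * m with hD
  have hDr : (D : ℝ) = 2 * (N + 1) * m := by rw [hD]; push_cast; ring
  have hD1 : (1 : ℝ) ≤ D := by rw [hDr]; nlinarith
  have hD0 : (0 : ℝ) < D := by linarith
  have hDα : 1 ≤ (D : ℝ) ^ α := Real.one_le_rpow hD1 hα0.le
  set B : ℕ := ⌈(D : ℝ) ^ α⌉₊ with hB
  have hB1 : 1 ≤ B := Nat.one_le_ceil_iff.2 (by linarith)
  have hB1r : (1 : ℝ) ≤ B := by exact_mod_cast hB1
  have hBge : (D : ℝ) ^ α ≤ B := Nat.le_ceil _
  have hBle : (B : ℝ) ≤ 2 * (D : ℝ) ^ α := by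
    have := Nat.ceil_lt_add_one (show (0 : ℝ) ≤ (D : ℝ) ^ α by linarith)
    rw [← hB] at this
    linarith
  set R : ℕ := ⌊2 * B / η⌋₊ + 2 with hR
  refine ⟨B, R, Nat.clog 2 R + 1, ?_, by omega, ?_, by omega, ?_, ?_⟩
  · have h1 : (D : ℝ) ≤ ((B : ℝ) + 1) ^ (m - 1) := by
      have h2 : ((D : ℝ) ^ α) ^ (m - 1) = D := by
        rw [← Real.rpow_natCast, ← Real.rpow_mul hD0.le, Nat.cast_sub (by omega), hα]
        push_cast
        rw [one_div_mul_cancel (by linarith : (m : ℝ) - 1 ≠ 0), Real.rpow_one]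
      calc (D : ℝ) = ((D : ℝ) ^ α) ^ (m - 1) := h2.symm
        _ ≤ ((B : ℝ) + 1) ^ (m - 1) := pow_le_pow_left₀ (by linarith) (by linarith) _
    have h2 : D ≤ (B + 1) ^ (m - 1) := by exact_mod_cast h1
    have h3 : (B + 1) ^ m = (B + 1) * (B + 1) ^ (m - 1) := by
      rw [← pow_succ']
      congr 1
      omega
    have h4 : 4 ≤ D := by
      rw [hD]
      nlinarith
    rw [h3]
    calc B * D + 1 < B * D + D := by omega
      _ = (B + 1) * D := by ring
      _ ≤ (B + 1) * (B + 1) ^ (m - 1) := Nat.mul_le_mul_left _ h2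
  · have h1 : (2 : ℝ) * B / η < ⌊2 * B / η⌋₊ + 1 := Nat.lt_floor_add_one _
    have h2 : η * N < ⌊η * N⌋₊ + 1 := Nat.lt_floor_add_one _
    have h3 : (2 : ℝ) * B * N < (⌊2 * B / η⌋₊ + 1) * (⌊η * N⌋₊ + 1) := by
      calc (2 : ℝ) * B * N = (2 * B / η) * (η * N) := by field_simp
        _ < (⌊2 * B / η⌋₊ + 1) * (⌊η * N⌋₊ + 1) := by
            apply mul_lt_mul'' h1 h2 (by positivity) (by positivity)
    have h4 : (2 : ℝ) * B * y ≤ 2 * B * N := by
      apply mul_le_mul_of_nonneg_left _ (by positivity)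
      exact_mod_cast hyN
    have h5 : R - 1 = ⌊2 * B / η⌋₊ + 1 := by omega
    rw [h5]
    have h6 : ((2 * B * y : ℕ) : ℝ) < (((⌊2 * (B : ℝ) / η⌋₊ + 1) * (⌊η * N⌋₊ + 1) : ℕ) : ℝ) := by
      push_cast
      linarith
    exact_mod_cast h6
  · simp only [Nat.add_sub_cancel]
    exact Nat.le_pow_clog (by norm_num) R
  · have h1 := clog_le R (by omega)
    have hRle : (R : ℝ) ≤ (2 / η + 2) * B := by
      have h2 : (⌊2 * (B : ℝ) / η⌋₊ : ℝ) ≤ 2 * B / η := Nat.floor_le (by positivity)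
      rw [hR]
      push_cast
      calc (⌊2 * (B : ℝ) / η⌋₊ : ℝ) + 2 ≤ 2 * B / η + 2 * B := by linarith
        _ = (2 / η + 2) * B := by ring
    have hR0 : (0 : ℝ) < R := by
      have : 0 < R := by omega
      exact_mod_cast this
    have h3 : Real.log R ≤ Real.log (2 / η + 2) + Real.log B := by
      rw [← Real.log_mul (by positivity) (by positivity)]
      exact Real.log_le_log hR0 hRle
    have h4 : Real.log B ≤ Real.log 2 + α * Real.log D := by
      rw [← Real.log_rpow hD0, ← Real.log_mul (by norm_num) (by positivity)]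
      exact Real.log_le_log (by linarith) hBle
    have h5 : Real.log D ≤ Real.log (4 * m) + Real.log N := by
      rw [← Real.log_mul (by positivity) (by positivity)]
      apply Real.log_le_log hD0
      rw [hDr]
      nlinarith
    have h6 : Real.log R ≤ α * Real.log N +
        (Real.log (2 / η + 2) + Real.log 2 + α * Real.log (4 * m)) := by
      nlinarith
    have h7 : Real.log R / Real.log 2 ≤ (α * Real.log N +
        (Real.log (2 / η + 2) + Real.log 2 + α * Real.log (4 * m))) / Real.log 2 :=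
      div_le_div_of_nonneg_right h6 hl2.le
    push_cast
    have h8 : (α * Real.log N + (Real.log (2 / η + 2) + Real.log 2 + α * Real.log (4 * m))) /
        Real.log 2 = α * (Real.log N / Real.log 2) +
        (Real.log (2 / η + 2) + Real.log 2 + α * Real.log (4 * m)) / Real.log 2 := by ring
    linarith

theorem third (δ ε η : ℝ) (hδ : 0 < δ) (hδ1 : δ ≤ 1) (hε : 0 < ε) (hη : 0 < η) :
    ∀ᶠ N : ℕ in atTop, ∀ T : Finset ℕ, (∀ n ∈ T, n < N ∧ ⌊δ * Real.log 2 * N⌋₊ ≤ 2 ^ n ∧
      CloseSmooth₂ ⌊δ * Real.log 2 * N⌋₊ (⌊η * N⌋₊ + 1) ⌊δ * Real.log 2 * N⌋₊ n) →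
      (T.card : ℝ) ≤ (Real.log 4 * δ + ε) * N := by
  have hl2 : 0 < Real.log 2 := Real.log_pos (by norm_num)
  have hl2' : Real.log 2 < 1 := by have := Real.log_two_lt_d9; linarith
  have hl4 : 0 < Real.log 4 := Real.log_pos (by norm_num)
  have hl4' : Real.log 4 ≤ 3 / 2 := by
    have h5 : Real.log 4 = 2 * Real.log 2 := by
      rw [show (4 : ℝ) = 2 ^ 2 by norm_num, Real.log_pow]
      norm_num
    rw [h5]
    have := Real.log_two_lt_d9
    linarith
  set c : ℝ := δ * Real.log 2 with hc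
  have hc0 : 0 < c := by positivity
  have hc1 : c < 1 := by nlinarith
  -- the number m
  set m : ℕ := ⌈8 / ε⌉₊ + 2 with hm
  have hm2 : 2 ≤ m := by omega
  have hmr : 8 / ε + 2 ≤ m := by
    rw [hm]
    push_cast
    have := Nat.le_ceil (8 / ε)
    linarith
  have h8ε : 0 < 8 / ε := by positivity
  set α : ℝ := 1 / ((m : ℝ) - 1) with hα
  have hm1 : 0 < (m : ℝ) - 1 := by linarith
  have hα0 : 0 < α := one_div_pos.2 hm1
  have hα1 : α ≤ 1 := by
    rw [hα, div_le_one hm1]
    linarith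
  have hαε : α ≤ ε / 8 := by
    rw [hα, div_le_iff₀ hm1]
    have h1 : 8 / ε ≤ m - 1 := by linarith
    have h2 : ε / 8 * (8 / ε) = 1 := by field_simp
    nlinarith [mul_le_mul_of_nonneg_left h1 (by positivity : 0 ≤ ε / 8)]
  have hmα : (m : ℝ) * α = 1 + α := by
    rw [hα]
    field_simp
    ring
  set c₁ : ℝ := 2 + (Real.log (2 / η + 2) + Real.log 2 + α * Real.log (4 * m)) / Real.log 2
    with hc₁
  have hc₁0 : 0 ≤ c₁ := by
    have h1 : 0 ≤ Real.log (2 / η + 2) := Real.log_nonneg (by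
      have : 0 < 2 / η := by positivity
      linarith)
    have h2 : 0 ≤ Real.log (4 * m) := Real.log_nonneg (by linarith)
    positivity
  -- the largeness of N
  set L₀ : ℝ := 2 / ε * ((Real.log 4 + α) * m * c₁ * c - (Real.log 4 * δ + ε) * Real.log c) with hL₀
  have hcN : Tendsto (fun N : ℕ => c * (N : ℝ)) atTop atTop :=
    (tendsto_natCast_atTop_atTop).const_mul_atTop hc0
  have e1 := hcN.eventually (Chebyshev.eventually_primeCounting_le hα0)
  have e2 := hcN.eventually (eventually_ge_atTop (2 : ℝ))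
  have e3 := (Real.tendsto_log_atTop.comp (tendsto_natCast_atTop_atTop (R := ℝ))).eventually
    (eventually_ge_atTop L₀)
  filter_upwards [e1, e2, e3, eventually_ge_atTop 1] with N h1 h2 h3 hN T hT
  have hNr : (1 : ℝ) ≤ N := by exact_mod_cast hN
  have hN0 : (0 : ℝ) < N := by linarith
  set y : ℕ := ⌊c * N⌋₊ with hy
  have hy2 : 2 ≤ y := Nat.le_floor (by push_cast; exact h2)
  have hyN : y ≤ N := by
    have h4 : (y : ℝ) ≤ c * N := Nat.floor_le (by positivity)
    have h5 : (y : ℝ) ≤ N := by nlinarith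
    exact_mod_cast h5
  obtain ⟨B, R, g, hB, hR2, hR, hg1, hg, hgle⟩ := exists_params η α m hη hm2 hα N y hN hyN
  have hcount := count_core2 y (⌊η * N⌋₊ + 1) y N m B R g hy2 (by omega)
    ((range (y + 1)).filter Nat.Prime) rfl hB hR2 hR hg1 hg T hT
  have hπ : ((range (y + 1)).filter Nat.Prime).card = Nat.primeCounting y := by
    rw [Nat.primeCounting, Nat.primeCounting', Nat.count_eq_card_filter_range]
  rw [hπ] at hcount
  have hcr : (T.card : ℝ) ≤ m * Nat.primeCounting y * g := by exact_mod_cast hcount.le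
  set L : ℝ := Real.log N with hL
  have hLc : Real.log (c * N) = Real.log c + L := Real.log_mul hc0.ne' hN0.ne'
  have hLpos : 0 < Real.log c + L := by
    rw [← hLc]
    exact Real.log_pos (by linarith)
  rw [hLc] at h1
  have hg' : (g : ℝ) ≤ α * (L / Real.log 2) + c₁ := hgle
  have hL0 : 0 ≤ L := Real.log_nonneg hNr
  calc (T.card : ℝ) ≤ m * Nat.primeCounting y * g := hcr
    _ ≤ m * ((Real.log 4 + α) * (c * N) / (Real.log c + L)) * (α * (L / Real.log 2) + c₁) := by
        apply mul_le_mul _ hg' (by positivity) (by positivity)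
        apply mul_le_mul_of_nonneg_left _ (by positivity)
        exact h1
    _ = ((Real.log 4 + α) * ((1 + α) * δ * L + m * c₁ * c)) / (Real.log c + L) * N := by
        rw [← hmα, hc]
        field_simp
    _ ≤ (Real.log 4 * δ + ε) * N := by
        apply mul_le_mul_of_nonneg_right _ hN0.le
        rw [div_le_iff₀ hLpos]
        have h4 : (Real.log 4 + α) * (1 + α) * δ ≤ Real.log 4 * δ + ε / 2 := by
          have h5 : (Real.log 4 + α) * (1 + α) ≤ Real.log 4 + ε / 2 := by nlinarith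
          have h6 : (Real.log 4 + α) * (1 + α) * δ ≤ (Real.log 4 + ε / 2) * δ :=
            mul_le_mul_of_nonneg_right h5 hδ.le
          nlinarith
        have h5 : 2 / ε * ((Real.log 4 + α) * m * c₁ * c - (Real.log 4 * δ + ε) * Real.log c) ≤ L :=
          h3
        have h6 : (Real.log 4 + α) * m * c₁ * c - (Real.log 4 * δ + ε) * Real.log c ≤ ε / 2 * L := by
          have h7 := mul_le_mul_of_nonneg_left h5 (by positivity : 0 ≤ ε / 2)
          have h8 : ε / 2 * (2 / ε * ((Real.log 4 + α) * m * c₁ * c -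
              (Real.log 4 * δ + ε) * Real.log c)) =
              (Real.log 4 + α) * m * c₁ * c - (Real.log 4 * δ + ε) * Real.log c := by
            field_simp
          linarith
        have h7 := mul_le_mul_of_nonneg_right h4 hL0
        nlinarith

end Pool.Agent.GPF
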