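import Pool.Agent.Lib_MP_a076cd.Core
import Pool.Agent.Lib_MP_a076cd.Defs

/-!
# The window form
-/

set_option autoImplicit false

namespace Pool.Agent.GPF

open Finset

theorem windows (S : Finset ℕ) (hS : 0 < S.card) (hSp : ∀ q ∈ S, q.Prime) (z M : ℕ) (hz : 1 ≤ z) :
    ∃ W : Finset ℕ, W.card < 2 * S.card ∧ ∀ a : ℕ, z ≤ a → Partner S z M a →
      ∃ w ∈ W, a < (8 * S.card ^ 2 * M * z + 1) * w ∧ w < (8 * S.card ^ 2 * M * z + 1) * a := by
  classical
  set R : ℕ := 8 * S.card ^ 2 * M * z + 1 with hR
  have hRS : 2 * (2 * S.card) ^ 2 * M * z + 1 = R := by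
    rw [hR]
    ring
  set 𝒜 : Finset ℕ := (range (2 ^ M)).filter (fun a => z ≤ a ∧ Partner S z M a) with h𝒜
  set 𝒲 : Finset (Finset ℕ) := 𝒜.powerset.filter
    (fun W => ∀ v ∈ W, ∀ w ∈ W, v < w → R * v ≤ w) with h𝒲
  have hne : 𝒲.Nonempty := ⟨∅, by simp [h𝒲]⟩
  obtain ⟨W, hW, hmax⟩ := Finset.exists_max_image 𝒲 Finset.card hne
  rw [h𝒲, mem_filter, mem_powerset] at hW
  refine ⟨W, ?_, ?_⟩
  · by_contra hcon
    push Not at hcon
    set e := W.orderEmbOfFin rfl with he
    set f : Fin (2 * S.card) → ℕ := fun i => e ⟨i, lt_of_lt_of_le i.2 hcon⟩ with hf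
    have hfW : ∀ i, f i ∈ W := fun i => Finset.orderEmbOfFin_mem W rfl _
    have hfA : ∀ i, z ≤ f i ∧ Partner S z M (f i) := fun i => by
      have := hW.1 (hfW i)
      rw [h𝒜, mem_filter] at this
      exact this.2
    choose b h1 h2 h3 h4 using fun i => (hfA i).2
    refine core z M hz S hS hSp f b (fun i => (hfA i).1) h1 h2 h4 h3 ?_
    intro i j hij
    rw [hRS]
    refine hW.2 (f i) (hfW i) (f j) (hfW j) ?_
    exact e.strictMono (by rw [Fin.mk_lt_mk]; exact hij)
  · intro a hza ha
    have haA : a ∈ 𝒜 := by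
      obtain ⟨b, h1, h2, h3, h4⟩ := ha
      rw [h𝒜, mem_filter, mem_range]
      exact ⟨by omega, hza, b, h1, h2, h3, h4⟩
    by_contra hcon
    push Not at hcon
    have ha0 : 1 ≤ a := by omega
    have haW : a ∉ W := by
      intro h
      have h1 := hcon a h
      by_cases h2 : a < R * a
      · have := h1 h2
        omega
      · obtain ⟨b, hb1, hb2, hb3, hb4⟩ := ha
        have hM : M ≠ 0 := by
          intro h
          rw [h] at hb3
          omega
        have h3 : 2 ≤ R := by
          have : 1 ≤ S.card ^ 2 * M * z :=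
            Nat.one_le_iff_ne_zero.2 (Nat.mul_ne_zero (Nat.mul_ne_zero (pow_ne_zero 2 hS.ne') hM)
              (by omega))
          nlinarith
        nlinarith
    have hins : insert a W ∈ 𝒲 := by
      rw [h𝒲, mem_filter, mem_powerset]
      refine ⟨Finset.insert_subset haA hW.1, ?_⟩
      intro v hv w hw hvw
      rw [mem_insert] at hv hw
      rcases hv with hv | hv <;> rcases hw with hw | hw
      · omega
      · subst hv
        by_cases h2 : v < R * w
        · exact hcon w hw h2
        · push Not at h2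
          have hR1 : 1 ≤ R := by rw [hR]; omega
          nlinarith
      · subst hw
        by_contra h2
        push Not at h2
        have h3 := hcon v hv h2
        have hR1 : 1 ≤ R := by rw [hR]; omega
        nlinarith
      · exact hW.2 v hv w hw hvw
    have := hmax _ hins
    rw [Finset.card_insert_of_notMem haW] at this
    omega

end Pool.Agent.GPF
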